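import Pool.Agent.R910.Mix.Main

/-!
# One polarization suffices
-/

open CategoryTheory AlgebraicGeometry TensorProduct

set_option linter.unusedSectionVars false

universe u v

namespace Pool.Agent.R910.Mix

open Pool.Agent.H914 Pool.Agent.H447 Pool.Agent.R910.Dom Pool.Agent.W534 VarClass Obj
  WeilCohomology

variable {k : Type u} [Field k] {𝒱 : VarClass k} {ops : CycleOps 𝒱}
  {W : WeilCohomology.{u, v} ops} {X Z : 𝒱.Obj}

attribute [local instance] ratAlg

/-- Zero-cycles. -/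
lemma homEqNumIn_top : HomEqNumIn W X X.dim := by
  intro z hz h0
  have h1 := h0 X.V.fundCycle (by rw [Nat.sub_self]; exact X.V.fundCycle_mem)
  have h2 := tr_mul_cl (W := W) hz X.V.fundCycle_mem (by omega)
  rw [h1, W.cl_fund, mul_one, Rat.cast_zero] at h2
  apply W.nondeg
  intro c
  refine gr_induction (W.isInternal X) (p := fun c => W.tr X (W.cl X z * c) = 0) ?_ ?_ c
  · intro t c hc
    by_cases ht : t = 0
    · subst ht
      rw [W.gr_zero] at hc
      obtain ⟨r, rfl⟩ := Submodule.mem_span_singleton.1 hc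
      rw [mul_smul_comm, mul_one, map_smul, h2, smul_zero]
    · exact W.tr_eq_zero (W.mul_mem (W.cl_mem hz) hc) (by omega)
  · intro c d hc hd
    rw [mul_add, map_add, hc, hd, add_zero]

/-- The lists with equal members. -/
lemma mulList_replicate (D : X.Cycles) (m : ℕ) (z : X.Cycles) :
    mulList ops (List.replicate m D) z = divPow ops D m z := by
  induction m with
  | zero => rfl
  | succ m ih =>
    rw [List.replicate_succ, divPow, Function.iterate_succ_apply']
    show ops.mul D (mulList ops (List.replicate m D) z) = _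
    rw [ih]
    rfl

/-- The mixed Hodge-Riemann relations contain the conjecture of Hodge type. -/
lemma MixedHodgeRiemann.hodge {A : Set X.Cycles} {j : ℕ} (h : MixedHodgeRiemann W X A j)
    {D : X.Cycles} (hD : D ∈ A) : HodgeTypeIn W X D j := by
  intro z hz h0 hne
  have h1 := h D hD (List.replicate (X.dim - 2 * j) D)
    (fun D' hD' => by rw [List.eq_of_mem_replicate hD']; exact hD) List.length_replicate z hz
  rw [mulList_replicate] at h1
  apply h1 _ hne
  rw [← h0, divPow, divPow, Function.iterate_succ_apply']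

/-- The mixed form of `A` contains the conjecture `A`. -/
lemma MixedLefschetz.lefschetz {A : Set X.Cycles} {j : ℕ} (h : MixedLefschetz W X A j)
    {D : X.Cycles} (hD : D ∈ A) : LefschetzAIn W X D j := by
  intro z hz
  have h1 := (h (List.replicate (X.dim - 2 * j) D)
    (fun D' hD' => by rw [List.eq_of_mem_replicate hD']; exact hD) List.length_replicate).2 z hz
  simpa only [mulList_replicate] using h1

lemma map_lop_pow (f : Z ⟶ X) (D : X.Cycles) (m : ℕ) (a : W.H X) :
    W.map f ((lop W X D ^ m) a) = (lop W Z (ops.pull f D) ^ m) (W.map f a) := by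
  induction m with
  | zero => rfl
  | succ m ih =>
    rw [pow_succ', pow_succ', Module.End.mul_apply, Module.End.mul_apply,
      LinearMap.mulLeft_apply, LinearMap.mulLeft_apply, ← ih, map_mul, W.cl_pull]

/-- **The conjecture of Hodge type from a hyperplane section.** -/
lemma hodge_of_section {f : Z ⟶ X} {D : X.Cycles} (hD : X.IsCyc 1 D)
    (hHL : HardLefschetz W X D) (hf : IsSection W f D) {j : ℕ} (hj : 2 * j < X.dim)
    (h : HodgeTypeIn W Z (ops.pull f D) j) : HodgeTypeIn W X D j := by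
  intro z hz h0 hne
  obtain ⟨hdim, ⟨c, hc, hcl⟩, hWL⟩ := id hf
  have hpush : ∀ b : W.H X, W.tr Z (W.map f b) = (c : W.K) * W.tr X (W.cl X D * b) := by
    intro b
    have h2 := W.tr_push f 1 b
    rw [one_mul, ← W.cl_fund Z, ← W.cl_push, hcl, smul_mul_assoc, map_smul, smul_eq_mul] at h2
    exact h2.symm
  rw [cl_divPow] at h0
  have h1 : W.map f ((lop W X D ^ (X.dim - 2 * j)) (W.cl X z)) = 0 := by
    obtain ⟨w, hw, hw'⟩ := alg_pow' (W := W) (i := X.dim - j) hD ⟨z, hz, rfl⟩
      (l := X.dim - 2 * j) (by omega)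
    apply map_eq_zero hf (r := 2 * (X.dim - j)) (by omega)
    · rw [← hw']; exact W.cl_mem hw
    · rw [pow_succ', Module.End.mul_apply, LinearMap.mulLeft_apply] at h0
      exact h0
  have hne' : W.cl Z (ops.pull f z) ≠ 0 := by
    intro h2
    rw [W.cl_pull] at h2
    apply hne
    apply (hHL (2 * j) (by omega)).1 _ (W.cl_mem hz)
    have h3 : W.cl X D * W.cl X z = 0 := by
      have h4 := W.push_mul f 1 (W.cl X z)
      rw [one_mul, h2, map_zero, ← W.cl_fund Z, ← W.cl_push, hcl, smul_mul_assoc] at h4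
      rcases smul_eq_zero.1 h4.symm with h5 | h5
      · exact absurd h5 (by exact_mod_cast hc.ne')
      · exact h5
    rw [show X.dim - 2 * j = (X.dim - 2 * j - 1) + 1 by omega, pow_succ, Module.End.mul_apply,
      LinearMap.mulLeft_apply, h3, map_zero]
  have h2 := h (ops.pull f z) (ops.pull_mem f hz) (by
    rw [cl_divPow, W.cl_pull f z, ← map_lop_pow, show Z.dim - 2 * j + 1 = X.dim - 2 * j by omega, h1])
    hne'
  have h3 : (X.V.degCycle (ops.mul z (divPow ops D (X.dim - 2 * j) z)) : W.K) =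
      W.tr X (W.cl X z * (lop W X D ^ (X.dim - 2 * j)) (W.cl X z)) := by
    rw [← cl_divPow, tr_mul_cl hz (divPow_mem hD _ hz) (by omega)]
  have h4 : (Z.V.degCycle (ops.mul (ops.pull f z)
      (divPow ops (ops.pull f D) (Z.dim - 2 * j) (ops.pull f z))) : W.K) =
      W.tr Z (W.map f (W.cl X z * (lop W X D ^ (Z.dim - 2 * j)) (W.cl X z))) := by
    rw [map_mul, map_lop_pow, ← W.cl_pull f z, ← cl_divPow,
      tr_mul_cl (ops.pull_mem f hz) (divPow_mem (ops.pull_mem f hD) _ (ops.pull_mem f hz))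
        (by omega)]
  rw [hpush] at h4
  have h5 : W.cl X D * (W.cl X z * (lop W X D ^ (Z.dim - 2 * j)) (W.cl X z)) =
      W.cl X z * (lop W X D ^ (X.dim - 2 * j)) (W.cl X z) := by
    rw [show X.dim - 2 * j = (Z.dim - 2 * j) + 1 by omega, pow_succ', Module.End.mul_apply,
      LinearMap.mulLeft_apply, ← mul_assoc, ← mul_assoc, W.even_comm (W.cl_mem hD)]
  rw [h5, ← h3] at h4
  have h6 : Z.V.degCycle (ops.mul (ops.pull f z)
      (divPow ops (ops.pull f D) (Z.dim - 2 * j) (ops.pull f z))) =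
      c * X.V.degCycle (ops.mul z (divPow ops D (X.dim - 2 * j) z)) := by exact_mod_cast h4
  rw [h6] at h2
  have h7 : (-1 : ℚ) ^ j * (c * X.V.degCycle (ops.mul z (divPow ops D (X.dim - 2 * j) z))) =
      c * ((-1 : ℚ) ^ j * X.V.degCycle (ops.mul z (divPow ops D (X.dim - 2 * j) z))) := by ring
  rw [h7] at h2
  exact (pos_iff_pos_of_mul_pos h2).1 hc

variable {i : ℕ} {𝒮 : Set 𝒱.Obj} {Amp : ∀ X : 𝒱.Obj, Set X.Cycles}

/-- The subsystem of the varieties of small dimension. -/
lemma IsAmpleSystem.sub (hS : IsAmpleSystem W 𝒮 Amp) (n : ℕ) :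
    IsAmpleSystem W {X | X ∈ 𝒮 ∧ X.dim < n} Amp where
  nonempty X hX := hS.nonempty X hX.1
  isCyc X hX := hS.isCyc X hX.1
  hardLefschetz X hX := hS.hardLefschetz X hX.1
  pos X hX := hS.pos X hX.1
  bertini X hX h2 D hD := by
    obtain ⟨Z, hZ, f, hf, h⟩ := hS.bertini X hX.1 h2 D hD
    exact ⟨Z, ⟨hZ, by have := hf.1; have := hX.2; omega⟩, f, hf, h⟩

/-- **Homological and numerical equivalence.** -/
theorem homEqNum_of_one (hS : IsAmpleSystem W 𝒮 Amp)
    (h : ∀ X ∈ 𝒮, ∃ D ∈ Amp X, (∀ j ≤ i, 2 * j ≤ X.dim → LefschetzAIn W X D j) ∧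
      ∀ j, 1 ≤ j → j ≤ i → X.dim = 2 * j → HodgeTypeIn W X D j) :
    ∀ n, ∀ X ∈ 𝒮, X.dim = n → ∀ j ≤ i, 2 * j ≤ X.dim →
      HomEqNumIn W X j ∧ HomEqNumIn W X (X.dim - j) := by
  intro n
  induction n using Nat.strong_induction_on with
  | _ n ih =>
    intro X hX hn j hj hj2
    obtain ⟨D, hD, hA, hH⟩ := h X hX
    have hall : ∀ l ≤ i, 2 * l ≤ X.dim → HodgeTypeIn W X D l := by
      intro l hl hl2
      rcases Nat.eq_zero_or_pos l with rfl | hl0
      · exact (mixed (i := 0) hS (fun Y _ j hj _ => by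
          obtain rfl : j = 0 := by omega
          rw [Nat.sub_zero]
          exact homEqNumIn_top) (fun Y _ j h1 h2 => absurd h1 (by omega)) X hX 0 (le_refl _)
          (by omega)).hodge hD
      rcases eq_or_ne X.dim (2 * l) with h1 | h1
      · exact hH l hl0 hl h1
      · obtain ⟨Z, hZ, f, hf, hpull⟩ := hS.bertini X hX (by omega) D hD
        have hdim := hf.1
        apply hodge_of_section (hS.isCyc X hX D hD) (hS.hardLefschetz X hX D hD) hf (by omega)
        exact (mixed (i := i) (hS.sub n) (fun Y hY j hj hj2 =>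
          (ih Y.dim hY.2 Y hY.1 rfl j hj hj2).2) (fun Y hY j h1 h2 h3 => by
            obtain ⟨D', hD', -, hH'⟩ := h Y hY.1
            exact ⟨D', hD', hH' j h1 h2 h3⟩) Z ⟨hZ, by omega⟩ l hl (by omega)).hodge
          (hpull D hD)
    have hhold : HoldsUpTo W X D (min i (X.dim / 2)) := by
      intro l hl
      have h1 := le_min_iff.1 hl
      exact ⟨hA l h1.1 (by omega), hall l h1.1 (by omega)⟩
    have hnum := num (hS.isCyc X hX D hD) (by have := min_le_right i (X.dim / 2); omega) hhold j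
      (le_min hj (by omega))
    constructor
    · intro z hz h0
      apply hnum.1 _ ⟨z, hz, rfl⟩
      rintro _ ⟨w, hw, rfl⟩
      rw [tr_mul_cl hz hw (by omega), h0 w hw, Rat.cast_zero]
    · intro z hz h0
      apply hnum.2 _ ⟨z, hz, rfl⟩
      rintro _ ⟨w, hw, rfl⟩
      rw [W.even_comm (W.cl_mem hw), tr_mul_cl hz hw (by omega), h0 w, Rat.cast_zero]
      rwa [show X.dim - (X.dim - j) = j by omega]

/-- The mixed form of the conjecture `A`. -/
lemma mixedLefschetz {A : Set X.Cycles} (hA : ∀ D ∈ A, X.IsCyc 1 D) {D₀ : X.Cycles}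
    (hD₀ : D₀ ∈ A) (hHL : HardLefschetz W X D₀) {j : ℕ} (hj : 2 * j ≤ X.dim)
    (hN : HomEqNumIn W X (X.dim - j)) (hH : MixedHodgeRiemann W X A j) :
    MixedLefschetz W X A j := by
  intro L hL hlen
  obtain ⟨l, -, -, p, -, hp⟩ := exists_list (W := W) X hA L hL
  have hinj : ∀ z, X.IsCyc j z → W.cl X (mulList ops L z) = 0 → W.cl X z = 0 := by
    intro z hz h0
    by_contra hne
    have h1 := hH D₀ hD₀ L hL hlen z hz (by rw [W.cl_mul, h0, mul_zero]) hne
    have h2 := tr_mul_cl (W := W) hz (hp j z hz).1 (by rw [hlen]; omega)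
    rw [h0, mul_zero, map_zero] at h2
    have h3 : X.V.degCycle (ops.mul z (mulList ops L z)) = 0 := by exact_mod_cast h2.symm
    rw [h3, mul_zero] at h1
    exact lt_irrefl _ h1
  refine ⟨hinj, fun z' hz' => ?_⟩
  have hfin : Module.Finite ℚ (AQj W X j) := finQ (hA D₀ hD₀) hHL hj hN
  -- the pairing
  set pair : AQj W X (X.dim - j) →ₗ[ℚ] Module.Dual ℚ (AQj W X j) :=
    ((LinearMap.mul ℚ (AQ W X)).compr₂ (degQ W X)).domRestrict₁₂ _ _ with hpair
  have hpinj : Function.Injective pair := by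
    rw [← LinearMap.ker_eq_bot, LinearMap.ker_eq_bot']
    rintro ⟨b, z, hz, hzb⟩ h0
    apply Subtype.ext
    apply Subtype.ext
    show (b : W.H X) = 0
    rw [← hzb]
    apply hN z hz
    intro w hw
    rw [show X.dim - (X.dim - j) = j by omega] at hw
    have h1 : degQ W X (b * mkA (W := W) ⟨w, hw, rfl⟩) = 0 :=
      congrArg (fun F => F ⟨mkA (W := W) ⟨w, hw, rfl⟩, ⟨w, hw, rfl⟩⟩) h0
    have h2 : W.tr X ((b * mkA (W := W) ⟨w, hw, rfl⟩ : AQ W X) : W.H X) =
        (X.V.degCycle (ops.mul z w) : W.K) := by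
      show W.tr X ((b : W.H X) * W.cl X w) = _
      rw [← hzb, tr_mul_cl hz hw (by omega)]
    rw [degQ_apply, h2, ret_ratCast (retr_one W)] at h1
    exact h1
  have hfin' : Module.Finite ℚ (AQj W X (X.dim - j)) := Module.Finite.of_injective pair hpinj
  have hle : Module.finrank ℚ (AQj W X (X.dim - j)) ≤ Module.finrank ℚ (AQj W X j) := by
    have := LinearMap.finrank_le_finrank_of_injective hpinj
    rwa [Subspace.dual_finrank_eq] at this
  have hmem : ∀ a ∈ AQj W X j, LinearMap.mulLeft ℚ p a ∈ AQj W X (X.dim - j) := by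
    rintro a ⟨z, hz, hza⟩
    obtain ⟨h1, h2⟩ := hp j z hz
    rw [hlen, show j + (X.dim - 2 * j) = X.dim - j by omega] at h1
    exact ⟨_, h1, by rw [h2, hza]; rfl⟩
  set g : AQj W X j →ₗ[ℚ] AQj W X (X.dim - j) := (LinearMap.mulLeft ℚ p).restrict hmem with hg
  have hginj : Function.Injective g := by
    rw [← LinearMap.ker_eq_bot, LinearMap.ker_eq_bot']
    rintro ⟨a, z, hz, hza⟩ h0
    apply Subtype.ext
    apply Subtype.ext
    show (a : W.H X) = 0
    rw [← hza]
    apply hinj z hz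
    rw [(hp j z hz).2, hza]
    exact congrArg Subtype.val (congrArg Subtype.val h0)
  have hgsurj : Function.Surjective g :=
    (LinearMap.injective_iff_surjective_of_finrank_eq_finrank
      (le_antisymm (LinearMap.finrank_le_finrank_of_injective hginj) hle)).1 hginj
  obtain ⟨⟨a, z, hz, hza⟩, h1⟩ := hgsurj ⟨mkA (W := W) ⟨z', hz', rfl⟩, ⟨z', hz', rfl⟩⟩
  refine ⟨z, hz, ?_⟩
  rw [(hp j z hz).2, hza]
  exact congrArg Subtype.val (congrArg Subtype.val h1)

/-- **One polarization suffices.** -/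
theorem one_polarization (hS : IsAmpleSystem W 𝒮 Amp)
    (h : ∀ X ∈ 𝒮, ∃ D ∈ Amp X, (∀ j ≤ i, 2 * j ≤ X.dim → LefschetzAIn W X D j) ∧
      ∀ j, 1 ≤ j → j ≤ i → X.dim = 2 * j → HodgeTypeIn W X D j) :
    ∀ X ∈ 𝒮, ∀ j ≤ i, 2 * j ≤ X.dim →
      (∀ D ∈ Amp X, LefschetzAIn W X D j ∧ HodgeTypeIn W X D j) ∧
      MixedLefschetz W X (Amp X) j ∧ MixedHodgeRiemann W X (Amp X) j ∧
      HomEqNumIn W X j ∧ HomEqNumIn W X (X.dim - j) := by
  intro X hX j hj hj2
  have h1 := homEqNum_of_one hS h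
  have h2 := mixed hS (fun Y hY j hj hj2 => (h1 _ Y hY rfl j hj hj2).2)
    (fun Y hY j h1 h2 h3 => by
      obtain ⟨D', hD', -, hH'⟩ := h Y hY
      exact ⟨D', hD', hH' j h1 h2 h3⟩) X hX j hj hj2
  obtain ⟨D, hD, -, -⟩ := h X hX
  have h3 := mixedLefschetz (hS.isCyc X hX) hD (hS.hardLefschetz X hX D hD) hj2
    (h1 _ X hX rfl j hj hj2).2 h2
  exact ⟨fun D' hD' => ⟨h3.lefschetz hD', h2.hodge hD'⟩, h3, h2, h1 _ X hX rfl j hj hj2⟩

end Pool.Agent.R910.Mix
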