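import Pool.Agent.R910.Dom.Defs
import Pool.Agent.H447R3.DegDefs
import Pool.Agent.W534.HDefs

/-!
# Systems of ample divisors: definitions
-/

open CategoryTheory AlgebraicGeometry

universe u v

namespace Pool.Agent.R910.Mix

open Pool.Agent.H914 Pool.Agent.H447 Pool.Agent.W534 VarClass Obj WeilCohomology

variable {k : Type u} [Field k] {𝒱 : VarClass k} {ops : CycleOps 𝒱}

/-- The morphism `f : Z ⟶ X` is a hyperplane section in the direction of the divisor `D` on `X`:
`dim X = dim Z + 1`, the direct image of the fundamental class of `Z` is a positive rational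
multiple of the class of `D`, and the weak Lefschetz theorem holds for `f`. -/
def IsSection (W : WeilCohomology.{u, v} ops) {Z X : 𝒱.Obj} (f : Z ⟶ X) (D : X.Cycles) : Prop :=
  X.dim = Z.dim + 1 ∧
    (∃ c : ℚ, 0 < c ∧ W.cl X (ops.push f Z.V.fundCycle) = (c : W.K) • W.cl X D) ∧
    WeakLefschetz W f

/-- For the varieties `X` in the set `𝒮`, the sets `Amp X` of divisors (cycles of codimension one
with rational coefficients) behave like the sets of all ample divisors: they satisfy the hard
Lefschetz theorem and have positive degree, and (theorem of Bertini) if `dim X ≥ 2` and `D` is in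
`Amp X`, there is a hyperplane section `f : Z ⟶ X` with `Z` in `𝒮` in the direction of `D`, such
that the pull-backs to `Z` of all members of `Amp X` are in `Amp Z`. -/
structure IsAmpleSystem (W : WeilCohomology.{u, v} ops) (𝒮 : Set 𝒱.Obj)
    (Amp : ∀ X : 𝒱.Obj, Set X.Cycles) : Prop where
  nonempty : ∀ X ∈ 𝒮, (Amp X).Nonempty
  isCyc : ∀ X ∈ 𝒮, ∀ D ∈ Amp X, X.IsCyc 1 D
  hardLefschetz : ∀ X ∈ 𝒮, ∀ D ∈ Amp X, HardLefschetz W X D
  pos : ∀ X ∈ 𝒮, ∀ D ∈ Amp X, 0 < X.V.degCycle (divPow ops D X.dim X.V.fundCycle)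
  bertini : ∀ X ∈ 𝒮, 2 ≤ X.dim → ∀ D ∈ Amp X, ∃ Z ∈ 𝒮, ∃ f : Z ⟶ X, IsSection W f D ∧
    ∀ D' ∈ Amp X, ops.pull f D' ∈ Amp Z

/-- The product of the divisors in the list with the cycle `z`. -/
noncomputable def mulList (ops : CycleOps 𝒱) {X : 𝒱.Obj} (L : List X.Cycles) (z : X.Cycles) :
    X.Cycles := L.foldr ops.mul z

/-- The mixed form of the conjecture `A` for `X` in codimension `j`, for the divisors in `A`: let
`n = dim X`, and let the `n - 2 j` members of the list `L` be divisors in `A`. Then the product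
with all members of `L` is injective on the algebraic classes of codimension `j`, and every
algebraic class of codimension `n - j` is such a product. -/
def MixedLefschetz (W : WeilCohomology.{u, v} ops) (X : 𝒱.Obj) (A : Set X.Cycles) (j : ℕ) :
    Prop :=
  ∀ L : List X.Cycles, (∀ D ∈ L, D ∈ A) → L.length = X.dim - 2 * j →
    (∀ z, X.IsCyc j z → W.cl X (mulList ops L z) = 0 → W.cl X z = 0) ∧
    ∀ z', X.IsCyc (X.dim - j) z' → ∃ z, X.IsCyc j z ∧ W.cl X (mulList ops L z) = W.cl X z'

/-- The mixed Hodge-Riemann relations for `X` in codimension `j`, for the divisors in `A`: let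
`n = dim X`, let `D₀` and the `n - 2 j` members of the list `L` be divisors in `A`, and `z` a cycle of
codimension `j` whose class is not zero and whose product with `D₀` and all members of `L` is
zero. Then the sign of the intersection number of `z`, `z` and the members of `L` is
`(-1) ^ j`. -/
def MixedHodgeRiemann (W : WeilCohomology.{u, v} ops) (X : 𝒱.Obj) (A : Set X.Cycles) (j : ℕ) :
    Prop :=
  ∀ D₀ ∈ A, ∀ L : List X.Cycles, (∀ D ∈ L, D ∈ A) → L.length = X.dim - 2 * j →
    ∀ z, X.IsCyc j z → W.cl X (ops.mul D₀ (mulList ops L z)) = 0 → W.cl X z ≠ 0 →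
      0 < (-1 : ℚ) ^ j * X.V.degCycle (ops.mul z (mulList ops L z))

end Pool.Agent.R910.Mix
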