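import Pool.Agent.R910.Mix.Path

/-!
# Hodge-Riemann relations along a path of Lefschetz operators
-/

open Set Matrix

namespace Pool.Agent.R910.Mix

section

variable {V : Type*} [CommRing V] [Algebra ℝ V] (deg : V →ₗ[ℝ] ℝ) (N N' : Submodule ℝ V)
  [Module.Finite ℝ N] [Module.Finite ℝ N']

/-- The Gram matrix on the smaller space. -/
noncomputable def gram (Q : V) : Matrix (Fin (Module.finrank ℝ N')) (Fin (Module.finrank ℝ N')) ℝ :=
  Matrix.of fun a c => deg ((Module.finBasis ℝ N' a : V) * (Module.finBasis ℝ N' c : V) * Q)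

/-- The functionals on the smaller space. -/
noncomputable def rho (R : V) : N →ₗ[ℝ] (Fin (Module.finrank ℝ N') → ℝ) :=
  LinearMap.pi fun a =>
    deg ∘ₗ (LinearMap.mulRight ℝ ((Module.finBasis ℝ N' a : V) * R)) ∘ₗ N.subtype

lemma rho_apply (R : V) (x : N) (a : Fin (Module.finrank ℝ N')) :
    rho deg N N' R x a = deg ((x : V) * (Module.finBasis ℝ N' a : V) * R) := by
  rw [rho, LinearMap.pi_apply, LinearMap.comp_apply, LinearMap.comp_apply,
    LinearMap.mulRight_apply, Submodule.subtype_apply, mul_assoc]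

lemma gram_transpose (Q : V) : (gram deg N' Q)ᵀ = gram deg N' Q := by
  ext a c
  rw [Matrix.transpose_apply, gram, Matrix.of_apply, Matrix.of_apply, mul_comm
    (Module.finBasis ℝ N' c : V)]

lemma gram_inv_transpose (Q : V) : ((gram deg N' Q)⁻¹)ᵀ = (gram deg N' Q)⁻¹ := by
  rw [Matrix.transpose_nonsing_inv, gram_transpose]

/-- The coordinates of the component. -/
noncomputable def cvec (R Q : V) : N →ₗ[ℝ] (Fin (Module.finrank ℝ N') → ℝ) :=
  (Matrix.mulVecLin (gram deg N' Q)⁻¹) ∘ₗ rho deg N N' R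

lemma cvec_apply (R Q : V) (x : N) :
    cvec deg N N' R Q x = (gram deg N' Q)⁻¹ *ᵥ (rho deg N N' R x) := rfl

lemma rho_cvec_symm (R Q : V) (x y : N) :
    rho deg N N' R x ⬝ᵥ cvec deg N N' R Q y = rho deg N N' R y ⬝ᵥ cvec deg N N' R Q x := by
  rw [cvec_apply, cvec_apply, Matrix.dotProduct_mulVec, ← Matrix.mulVec_transpose,
    gram_inv_transpose, dotProduct_comm]

/-- The modified form. -/
noncomputable def modForm (ε : ℝ) (P R Q : V) : N →ₗ[ℝ] N →ₗ[ℝ] ℝ :=
  LinearMap.mk₂ ℝ (fun x y => ε * (deg ((x : V) * y * P) - rho deg N N' R x ⬝ᵥ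
      cvec deg N N' R Q y) + cvec deg N N' R Q x ⬝ᵥ cvec deg N N' R Q y)
    (by
      intro x x' y
      simp only [map_add, Submodule.coe_add, add_mul, add_dotProduct]
      ring)
    (by
      intro c x y
      simp only [map_smul, Submodule.coe_smul, smul_mul_assoc, smul_dotProduct, smul_eq_mul]
      ring)
    (by
      intro x y y'
      simp only [map_add, Submodule.coe_add, mul_add, add_mul, dotProduct_add]
      ring)
    (by
      intro c x y
      simp only [map_smul, Submodule.coe_smul, mul_smul_comm, smul_mul_assoc, dotProduct_smul,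
        smul_eq_mul]
      ring)

lemma modForm_apply (ε : ℝ) (P R Q : V) (x y : N) : modForm deg N N' ε P R Q x y =
    ε * (deg ((x : V) * y * P) - rho deg N N' R x ⬝ᵥ cvec deg N N' R Q y) +
      cvec deg N N' R Q x ⬝ᵥ cvec deg N N' R Q y := rfl

variable {deg N N'}

/-- The Gram matrix is invertible. -/
lemma det_gram_ne {Q : V}
    (hu : ∀ w ∈ N', (∀ w' ∈ N', deg (w * w' * Q) = 0) → w = 0) : (gram deg N' Q).det ≠ 0 := by
  intro h0
  obtain ⟨v, hv0, hv⟩ := Matrix.exists_mulVec_eq_zero_iff.2 h0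
  apply hv0
  set b := Module.finBasis ℝ N' with hb
  set w : N' := b.equivFun.symm v with hw
  have hw0 : (w : V) = 0 := by
    apply hu w w.2
    intro w' hw'
    have h1 : ∀ a, deg ((w : V) * (b a : V) * Q) = 0 := by
      intro a
      have h2 := congrFun hv a
      rw [Matrix.mulVec, dotProduct, Pi.zero_apply] at h2
      rw [← h2, hw, Module.Basis.equivFun_symm_apply]
      rw [Submodule.coe_sum, Finset.sum_mul, Finset.sum_mul, map_sum]
      apply Finset.sum_congr rfl
      intro c _
      rw [Submodule.coe_smul, smul_mul_assoc, smul_mul_assoc, map_smul, smul_eq_mul, gram,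
        Matrix.of_apply, mul_comm (b c : V), mul_comm (v c)]
    have h3 : (⟨w', hw'⟩ : N') = ∑ a, b.repr ⟨w', hw'⟩ a • b a := (b.sum_repr _).symm
    have h4 : w' = ∑ a, b.repr ⟨w', hw'⟩ a • (b a : V) := by
      have := congrArg Subtype.val h3
      rw [Submodule.coe_sum] at this
      exact this
    rw [h4, Finset.mul_sum, Finset.sum_mul, map_sum]
    apply Finset.sum_eq_zero
    intro a _
    rw [mul_smul_comm, smul_mul_assoc, map_smul, h1, smul_zero]
  have h5 : w = 0 := Subtype.ext hw0
  rw [hw] at h5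
  exact (map_eq_zero_iff _ b.equivFun.symm.injective).1 h5

section facts

variable {D P : V} (hdet : (gram deg N' (D * D * P)).det ≠ 0)

include hdet

/-- The component. -/
lemma comp_spec (x : N) {w' : V} (hw' : w' ∈ N') :
    deg ((((Module.finBasis ℝ N').equivFun.symm (cvec deg N N' (D * P) (D * D * P) x) : N') : V) *
      w' * (D * D * P)) = deg ((x : V) * w' * (D * P)) := by
  set b := Module.finBasis ℝ N' with hb
  set c := cvec deg N N' (D * P) (D * D * P) x with hc
  have hUc : gram deg N' (D * D * P) *ᵥ c = rho deg N N' (D * P) x := by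
    rw [hc, cvec_apply, Matrix.mulVec_mulVec, Matrix.mul_nonsing_inv _ (isUnit_iff_ne_zero.2 hdet),
      Matrix.one_mulVec]
  have h1 : ∀ a, deg (((b.equivFun.symm c : N') : V) * (b a : V) * (D * D * P)) =
      deg ((x : V) * (b a : V) * (D * P)) := by
    intro a
    have h2 := congrFun hUc a
    rw [rho_apply, Matrix.mulVec, dotProduct] at h2
    rw [← h2, Module.Basis.equivFun_symm_apply, Submodule.coe_sum, Finset.sum_mul,
      Finset.sum_mul, map_sum]
    apply Finset.sum_congr rfl
    intro e _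
    rw [Submodule.coe_smul, smul_mul_assoc, smul_mul_assoc, map_smul, smul_eq_mul, gram,
      Matrix.of_apply, mul_comm (b e : V), mul_comm (c e)]
  have h3 : (⟨w', hw'⟩ : N') = ∑ a, b.repr ⟨w', hw'⟩ a • b a := (b.sum_repr _).symm
  have h4 : w' = ∑ a, b.repr ⟨w', hw'⟩ a • (b a : V) := by
    have := congrArg Subtype.val h3
    rw [Submodule.coe_sum] at this
    exact this
  rw [h4, Finset.mul_sum, Finset.sum_mul, map_sum, Finset.mul_sum, Finset.sum_mul, map_sum]
  apply Finset.sum_congr rfl
  intro a _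
  rw [mul_smul_comm, smul_mul_assoc, map_smul, h1, mul_smul_comm, smul_mul_assoc, map_smul]

/-- The component of a multiple. -/
lemma cvec_mul {w : V} (hw : w ∈ N') (hDw : D * w ∈ N) :
    cvec deg N N' (D * P) (D * D * P) ⟨D * w, hDw⟩ =
      (Module.finBasis ℝ N').equivFun ⟨w, hw⟩ := by
  set b := Module.finBasis ℝ N' with hb
  have h1 : rho deg N N' (D * P) ⟨D * w, hDw⟩ =
      gram deg N' (D * D * P) *ᵥ (b.equivFun ⟨w, hw⟩) := by
    funext a
    rw [rho_apply, Matrix.mulVec, dotProduct]
    have h4 : w = ∑ e, b.equivFun ⟨w, hw⟩ e • (b e : V) := by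
      have := congrArg Subtype.val (b.sum_equivFun ⟨w, hw⟩).symm
      rw [Submodule.coe_sum] at this
      exact this
    have h5 : D * w * (b a : V) * (D * P) = w * ((b a : V) * (D * D * P)) := by ring
    show deg (D * w * (b a : V) * (D * P)) = _
    rw [h5]
    conv_lhs => rw [h4]
    rw [Finset.sum_mul, map_sum]
    apply Finset.sum_congr rfl
    intro e _
    rw [smul_mul_assoc, map_smul, smul_eq_mul, gram, Matrix.of_apply, mul_comm (deg _)]
    congr 2
    ring
  rw [cvec_apply, h1, Matrix.mulVec_mulVec, Matrix.nonsing_inv_mul _ (isUnit_iff_ne_zero.2 hdet),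
    Matrix.one_mulVec]

lemma rho_dot (x : N) (y : N) : rho deg N N' (D * P) x ⬝ᵥ cvec deg N N' (D * P) (D * D * P) y =
    deg ((x : V) * (((Module.finBasis ℝ N').equivFun.symm
      (cvec deg N N' (D * P) (D * D * P) y) : N') : V) * (D * P)) := by
  set b := Module.finBasis ℝ N' with hb
  set c := cvec deg N N' (D * P) (D * D * P) y with hc
  rw [Module.Basis.equivFun_symm_apply, Submodule.coe_sum, Finset.mul_sum, Finset.sum_mul,
    map_sum, dotProduct]
  apply Finset.sum_congr rfl
  intro a _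
  rw [rho_apply, Submodule.coe_smul, mul_smul_comm, smul_mul_assoc, map_smul, smul_eq_mul,
    mul_comm]

lemma rho_zero {x : N} (hc : cvec deg N N' (D * P) (D * D * P) x = 0) :
    rho deg N N' (D * P) x = 0 := by
  have hUc : gram deg N' (D * D * P) *ᵥ cvec deg N N' (D * P) (D * D * P) x =
      rho deg N N' (D * P) x := by
    rw [cvec_apply, Matrix.mulVec_mulVec, Matrix.mul_nonsing_inv _ (isUnit_iff_ne_zero.2 hdet),
      Matrix.one_mulVec]
  rw [← hUc, hc, Matrix.mulVec_zero]

/-- Nondegeneracy of the modified form. -/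
lemma modForm_nondeg {ε : ℝ} (hε : ε ≠ 0) (hDN : ∀ w ∈ N', D * w ∈ N)
    (hq : ∀ x ∈ N, (∀ y ∈ N, deg (x * y * P) = 0) → x = 0) (x : N)
    (hx : ∀ y, modForm deg N N' ε P (D * P) (D * D * P) x y = 0) : x = 0 := by
  set b := Module.finBasis ℝ N' with hb
  set w : N' := b.equivFun.symm (cvec deg N N' (D * P) (D * D * P) x) with hw
  -- multiples of `D`
  have h1 : cvec deg N N' (D * P) (D * D * P) x ⬝ᵥ cvec deg N N' (D * P) (D * D * P) x = 0 := by
    have h2 := hx ⟨D * (w : V), hDN w w.2⟩
    rw [modForm_apply, rho_cvec_symm, rho_dot hdet, cvec_mul hdet w.2 (hDN w w.2)] at h2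
    have h3 : deg ((x : V) * (D * (w : V)) * P) - deg (D * (w : V) * (w : V) * (D * P)) = 0 := by
      have h4 := comp_spec (N := N) (N' := N') (deg := deg) (P := P) hdet x w.2
      have e1 : (x : V) * (D * (w : V)) * P = (x : V) * (w : V) * (D * P) := by ring
      have e2 : D * (w : V) * (w : V) * (D * P) = (w : V) * (w : V) * (D * D * P) := by ring
      rw [e1, e2, ← h4, sub_self]
    change ε * (deg ((x : V) * (D * (w : V)) * P) - deg (D * (w : V) * (w : V) * (D * P))) +
      cvec deg N N' (D * P) (D * D * P) x ⬝ᵥ b.equivFun (⟨(w : V), w.2⟩ : N') = 0 at h2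
    rw [h3, mul_zero, zero_add] at h2
    have h5 : b.equivFun (⟨(w : V), w.2⟩ : N') = cvec deg N N' (D * P) (D * D * P) x := by
      rw [Subtype.coe_eta, hw, LinearEquiv.apply_symm_apply]
    rwa [h5] at h2
  have hc : cvec deg N N' (D * P) (D * D * P) x = 0 := dotProduct_self_eq_zero.1 h1
  apply Subtype.ext
  apply hq x x.2
  intro y hy
  have h2 := hx ⟨y, hy⟩
  rw [modForm_apply, hc, zero_dotProduct, add_zero, rho_zero hdet hc, zero_dotProduct, sub_zero]
    at h2
  exact (mul_eq_zero.1 h2).resolve_left hε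

/-- Positivity of the modified form from the Hodge-Riemann relations. -/
lemma modForm_pos {ε : ℝ} (hDN : ∀ w ∈ N', D * w ∈ N)
    (h0 : ∀ x ∈ N, x ≠ 0 → (∀ w ∈ N', deg (x * w * (D * P)) = 0) → 0 < ε * deg (x * x * P))
    (x : N) (hx : x ≠ 0) : 0 < modForm deg N N' ε P (D * P) (D * D * P) x x := by
  set b := Module.finBasis ℝ N' with hb
  set c := cvec deg N N' (D * P) (D * D * P) x with hc
  set w : N' := b.equivFun.symm c with hw
  set p : V := (x : V) - D * w with hp
  have hpN : p ∈ N := N.sub_mem x.2 (hDN w w.2)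
  have hspec : ∀ w' ∈ N', deg (w * w' * (D * D * P)) = deg ((x : V) * w' * (D * P)) :=
    fun w' hw' => comp_spec (N := N) (N' := N') (deg := deg) (P := P) hdet x hw'
  have hpo : ∀ w' ∈ N', deg (p * w' * (D * P)) = 0 := by
    intro w' hw'
    have e1 : p * w' * (D * P) = (x : V) * w' * (D * P) - (w : V) * w' * (D * D * P) := by
      rw [hp]; ring
    rw [e1, map_sub, hspec w' hw', sub_self]
  have hval : modForm deg N N' ε P (D * P) (D * D * P) x x = ε * deg (p * p * P) + c ⬝ᵥ c := by
    rw [modForm_apply, rho_dot hdet]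
    congr 2
    have e1 : p * p * P = (x : V) * x * P - (x : V) * w * (D * P) - p * w * (D * P) := by
      rw [hp]; ring
    rw [e1, map_sub, hpo w w.2, sub_zero, map_sub]
  have hcc : 0 ≤ c ⬝ᵥ c := by
    rw [dotProduct]
    exact Finset.sum_nonneg fun i _ => mul_self_nonneg _
  rw [hval]
  by_cases hp0 : p = 0
  · have h1 : c ≠ 0 := by
      intro h1
      apply hx
      apply Subtype.ext
      have h2 : (w : V) = 0 := by rw [hw, h1, map_zero]; rfl
      rw [hp, h2, mul_zero, sub_zero] at hp0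
      exact hp0
    have h2 : c ⬝ᵥ c ≠ 0 := fun h => h1 (dotProduct_self_eq_zero.1 h)
    rw [hp0, mul_zero, zero_mul, map_zero, mul_zero, zero_add]
    exact lt_of_le_of_ne hcc (Ne.symm h2)
  · have := h0 p hpN hp0 hpo
    linarith

/-- The Hodge-Riemann relations from positivity of the modified form. -/
lemma of_modForm_pos {ε : ℝ}
    (h1 : ∀ x : N, x ≠ 0 → 0 < modForm deg N N' ε P (D * P) (D * D * P) x x) :
    ∀ x ∈ N, x ≠ 0 → (∀ w ∈ N', deg (x * w * (D * P)) = 0) → 0 < ε * deg (x * x * P) := by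
  intro x hx hx0 hxw
  have h2 := h1 ⟨x, hx⟩ (fun h => hx0 (congrArg Subtype.val h))
  have h3 : rho deg N N' (D * P) ⟨x, hx⟩ = 0 := by
    funext a
    rw [rho_apply]
    exact hxw _ (Module.finBasis ℝ N' a).2
  have h4 : cvec deg N N' (D * P) (D * D * P) ⟨x, hx⟩ = 0 := by
    rw [cvec_apply, h3, Matrix.mulVec_zero]
  rw [modForm_apply, h3, h4, zero_dotProduct, sub_zero, add_zero] at h2
  exact h2

end facts

/-- **Hodge-Riemann relations along a path.** -/
theorem hr_path {ε : ℝ} (hε : ε ≠ 0) (D P : ℝ → V)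
    (hDN : ∀ s ∈ Icc (0 : ℝ) 1, ∀ w ∈ N', D s * w ∈ N)
    (hP : ∀ φ : V →ₗ[ℝ] ℝ, Continuous fun s => φ (P s))
    (hDP : ∀ φ : V →ₗ[ℝ] ℝ, Continuous fun s => φ (D s * P s))
    (hDDP : ∀ φ : V →ₗ[ℝ] ℝ, Continuous fun s => φ (D s * D s * P s))
    (hq : ∀ s ∈ Icc (0 : ℝ) 1, ∀ x ∈ N, (∀ y ∈ N, deg (x * y * P s) = 0) → x = 0)
    (hu : ∀ s ∈ Icc (0 : ℝ) 1, ∀ w ∈ N', (∀ w' ∈ N', deg (w * w' * (D s * D s * P s)) = 0) →
      w = 0)
    (h0 : ∀ x ∈ N, x ≠ 0 → (∀ w ∈ N', deg (x * w * (D 0 * P 0)) = 0) →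
      0 < ε * deg (x * x * P 0)) :
    ∀ x ∈ N, x ≠ 0 → (∀ w ∈ N', deg (x * w * (D 1 * P 1)) = 0) →
      0 < ε * deg (x * x * P 1) := by
  have h01 : (0 : ℝ) ∈ Icc (0 : ℝ) 1 := ⟨le_rfl, zero_le_one⟩
  have h11 : (1 : ℝ) ∈ Icc (0 : ℝ) 1 := ⟨zero_le_one, le_rfl⟩
  have hdet : ∀ s ∈ Icc (0 : ℝ) 1, (gram deg N' (D s * D s * P s)).det ≠ 0 :=
    fun s hs => det_gram_ne (hu s hs)
  have hgram : Continuous fun s => gram deg N' (D s * D s * P s) := by
    refine continuous_pi fun a => continuous_pi fun c => ?_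
    exact hDDP (deg ∘ₗ LinearMap.mulLeft ℝ
      ((Module.finBasis ℝ N' a : V) * (Module.finBasis ℝ N' c : V)))
  have hrho : ∀ x : N, Continuous fun s => rho deg N N' (D s * P s) x := by
    intro x
    refine continuous_pi fun a => ?_
    simp only [rho_apply]
    exact hDP (deg ∘ₗ LinearMap.mulLeft ℝ ((x : V) * (Module.finBasis ℝ N' a : V)))
  have hinv : ContinuousOn (fun s => (gram deg N' (D s * D s * P s))⁻¹) (Icc 0 1) := by
    have h1 : (fun s => (gram deg N' (D s * D s * P s))⁻¹) = fun s =>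
        ((gram deg N' (D s * D s * P s)).det)⁻¹ • (gram deg N' (D s * D s * P s)).adjugate := by
      funext s
      rw [Matrix.inv_def, Ring.inverse_eq_inv']
    rw [h1]
    exact ((hgram.matrix_det.continuousOn).inv₀ hdet).smul hgram.matrix_adjugate.continuousOn
  have hcvec : ∀ x : N, ContinuousOn (fun s => cvec deg N N' (D s * P s) (D s * D s * P s) x)
      (Icc 0 1) := by
    intro x
    simp only [cvec_apply]
    rw [continuousOn_iff_continuous_restrict] at hinv ⊢
    exact hinv.matrix_mulVec ((hrho x).comp continuous_subtype_val)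
  apply of_modForm_pos (hdet 1 h11)
  refine posDef_of_path (V := N) (fun s => modForm deg N N' ε (P s) (D s * P s) (D s * D s * P s))
    ?_ ?_ ?_ ?_
  · intro x y
    simp only [modForm_apply]
    apply ContinuousOn.add
    · apply ContinuousOn.mul continuousOn_const
      apply ContinuousOn.sub
      · exact (hP (deg ∘ₗ LinearMap.mulLeft ℝ ((x : V) * (y : V)))).continuousOn
      · have h1 := (hrho x).continuousOn (s := Icc (0 : ℝ) 1)
        have h2 := hcvec y
        simp only [dotProduct]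
        apply continuousOn_finset_sum
        intro a _
        exact ((continuous_apply a).comp_continuousOn h1).mul
          ((continuous_apply a).comp_continuousOn h2)
    · have h1 := hcvec x
      have h2 := hcvec y
      simp only [dotProduct]
      apply continuousOn_finset_sum
      intro a _
      exact ((continuous_apply a).comp_continuousOn h1).mul
        ((continuous_apply a).comp_continuousOn h2)
  · intro s x y
    rw [modForm_apply, modForm_apply, rho_cvec_symm, mul_comm (x : V), dotProduct_comm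
      (cvec deg N N' (D s * P s) (D s * D s * P s) x)]
  · intro s hs x hx
    exact modForm_nondeg (hdet s hs) hε (hDN s hs) (hq s hs) x hx
  · intro x hx
    exact modForm_pos (hdet 0 h01) (hDN 0 h01) h0 x hx

end

end Pool.Agent.R910.Mix
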