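import Pool.Agent.R910.Mix.Real2

/-!
# The mixed Hodge-Riemann relations for algebraic cycles
-/

open CategoryTheory AlgebraicGeometry TensorProduct

set_option linter.unusedSectionVars false

universe u v

namespace Pool.Agent.R910.Mix

open Pool.Agent.H914 Pool.Agent.H447 Pool.Agent.R910.Dom Pool.Agent.W534 VarClass Obj
  WeilCohomology

variable {k : Type u} [Field k] {𝒱 : VarClass k} {ops : CycleOps 𝒱}
  {W : WeilCohomology.{u, v} ops}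

attribute [local instance] ratAlg

/-- The polarizations as elements of the ring. -/
def ampR (W : WeilCohomology.{u, v} ops) (Amp : ∀ X : 𝒱.Obj, Set X.Cycles) (X : 𝒱.Obj) :
    Set (VR W X) :=
  {v | ∃ D ∈ Amp X, ∃ a : AQ W X, (a : W.H X) = W.cl X D ∧ v = (1 : ℝ) ⊗ₜ[ℚ] a}

variable {i : ℕ} {𝒮 : Set 𝒱.Obj} {Amp : ∀ X : 𝒱.Obj, Set X.Cycles}

theorem hrData (hS : IsAmpleSystem W 𝒮 Amp)
    (hD : ∀ X ∈ 𝒮, ∀ j ≤ i, 2 * j ≤ X.dim → HomEqNumIn W X (X.dim - j))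
    (hmid : ∀ X ∈ 𝒮, ∀ j, 1 ≤ j → j ≤ i → X.dim = 2 * j → ∃ D ∈ Amp X, HodgeTypeIn W X D j) :
    HRData i (fun X : 𝒮 => X.1.dim) (fun X => VR W X.1) (fun X => grR W X.1)
      (fun X => degR W X.1) (fun X => ampR W Amp X.1) where
  mul_mem X a ha j x hx := by
    rw [add_comm]
    exact grR_mul ha hx
  amp_mem := by
    rintro X _ ⟨D, hDm, a, ha, rfl⟩
    exact mem_grR ⟨D, hS.isCyc _ X.2 D hDm, ha.symm⟩ 1
  amp_nonempty X := by
    obtain ⟨D, hDm⟩ := hS.nonempty _ X.2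
    exact ⟨_, D, hDm, mkA (j := 1) ⟨D, hS.isCyc _ X.2 D hDm, rfl⟩, rfl, rfl⟩
  finite X j hj hj2 := by
    obtain ⟨D, hDm⟩ := hS.nonempty _ X.2
    exact finR (hS.isCyc _ X.2 D hDm) (hS.hardLefschetz _ X.2 D hDm) hj2 (hD _ X.2 j hj hj2)
  one X := by
    obtain ⟨D, hDm⟩ := hS.nonempty _ X.2
    exact grR_zero (hS.isCyc _ X.2 D hDm) (hS.pos _ X.2 D hDm)
  pos := by
    rintro X _ ⟨D, hDm, a, ha, rfl⟩
    show 0 < degR W X.1 (((1 : ℝ) ⊗ₜ[ℚ] a) ^ X.1.dim)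
    rw [degR_pow (hS.isCyc _ X.2 D hDm) ha]
    exact_mod_cast hS.pos _ X.2 D hDm
  nondeg X j hj hj2 y hy h0 := nondegR (by omega) (hD _ X.2 j hj hj2) hy h0
  hl := by
    rintro X _ ⟨D, hDm, a, ha, rfl⟩ j hj hj2 x hx h0
    exact hlR (hS.hardLefschetz _ X.2 D hDm) ha hj2 hx h0
  sec := by
    rintro X hX _ ⟨D, hDm, a, ha, rfl⟩
    obtain ⟨Z, hZ, f, hf, hpull⟩ := hS.bertini _ X.2 hX D hDm
    obtain ⟨hdim, ⟨c, hc, hcl⟩, hWL⟩ := id hf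
    refine ⟨⟨Z, hZ⟩, resR W f, c, hdim, by exact_mod_cast hc, fun j x hx => resR_mem f hx,
      fun x => degR_res hcl ha x, ?_, fun j hj hj2 x hx h0 =>
        prim_res (hS.isCyc _ X.2 D hDm) hf ha hj2 hx h0⟩
    rintro _ ⟨D', hD', b, hb, rfl⟩
    refine ⟨_, hpull D' hD', resA W f b, ?_, resR_tmul f 1 b⟩
    rw [resA_coe, hb, W.cl_pull]
  mid := by
    intro X j hj1 hj hX
    obtain ⟨D, hDm, hH⟩ := hmid _ X.2 j hj1 hj hX
    obtain ⟨j', rfl⟩ : ∃ j', j = j' + 1 := ⟨j - 1, by omega⟩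
    set a : AQ W X.1 := mkA (j := 1) ⟨D, hS.isCyc _ X.2 D hDm, rfl⟩ with ha
    have ha' : (a : W.H X.1) = W.cl X.1 D := rfl
    refine ⟨_, ⟨D, hDm, a, rfl, rfl⟩, fun x hx hx0 hw => ?_⟩
    apply midR hX hH ha' hx hx0
    have h1 : (1 : ℝ) ⊗ₜ[ℚ] a * x ∈ grR W X.1 (X.1.dim - j') := by
      have := grR_mul (mem_grR (W := W) (a := a) (j := 1)
        ⟨D, hS.isCyc _ X.2 D hDm, rfl⟩ 1) hx
      rwa [show 1 + (j' + 1) = X.1.dim - j' by omega] at this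
    apply nondegR (j := j') (by omega) (hD _ X.2 j' (by omega) (by omega)) h1
    intro w hw'
    rw [← hw w hw']
    congr 1
    ring

/-- The lists of divisors in the ring. -/
lemma exists_list (X : 𝒱.Obj) {A : Set X.Cycles} (hA : ∀ D ∈ A, X.IsCyc 1 D)
    (L : List X.Cycles) (hL : ∀ D ∈ L, D ∈ A) :
    ∃ l : List (VR W X), (∀ v ∈ l, ∃ D ∈ A, ∃ a : AQ W X, (a : W.H X) = W.cl X D ∧
      v = (1 : ℝ) ⊗ₜ[ℚ] a) ∧ l.length = L.length ∧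
      ∃ p : AQ W X, l.prod = (1 : ℝ) ⊗ₜ[ℚ] p ∧ ∀ (j : ℕ) (z : X.Cycles), X.IsCyc j z →
        X.IsCyc (j + L.length) (mulList ops L z) ∧
        W.cl X (mulList ops L z) = (p : W.H X) * W.cl X z := by
  induction L with
  | nil =>
    refine ⟨[], by simp, rfl, 1, rfl, fun j z hz => ⟨hz, ?_⟩⟩
    show W.cl X z = 1 * W.cl X z
    rw [one_mul]
  | cons D L ih =>
    obtain ⟨l, hl, hlen, p, hp, h⟩ := ih (fun D hD => hL D (by simp [hD]))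
    have hDm : D ∈ A := hL D (by simp)
    set a : AQ W X := mkA (j := 1) ⟨D, hA D hDm, rfl⟩ with ha
    refine ⟨((1 : ℝ) ⊗ₜ[ℚ] a) :: l, ?_, by simp [hlen], a * p, ?_, fun j z hz => ⟨?_, ?_⟩⟩
    · intro v hv
      rcases List.mem_cons.1 hv with rfl | hv
      · exact ⟨D, hDm, a, rfl, rfl⟩
      · exact hl v hv
    · rw [List.prod_cons, hp, Algebra.TensorProduct.tmul_mul_tmul, one_mul]
    · have h1 := ops.mul_mem (hA D hDm) (h j z hz).1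
      rw [List.length_cons, show j + (L.length + 1) = 1 + (j + L.length) by omega]
      exact h1
    · show W.cl X (ops.mul D (mulList ops L z)) = (W.cl X D * p) * W.cl X z
      rw [W.cl_mul, (h j z hz).2, mul_assoc]

/-- **The mixed Hodge-Riemann relations.** -/
theorem mixed (hS : IsAmpleSystem W 𝒮 Amp)
    (hD : ∀ X ∈ 𝒮, ∀ j ≤ i, 2 * j ≤ X.dim → HomEqNumIn W X (X.dim - j))
    (hmid : ∀ X ∈ 𝒮, ∀ j, 1 ≤ j → j ≤ i → X.dim = 2 * j → ∃ D ∈ Amp X, HodgeTypeIn W X D j) :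
    ∀ X ∈ 𝒮, ∀ j ≤ i, 2 * j ≤ X.dim → MixedHodgeRiemann W X (Amp X) j := by
  intro X hX j hj hj2 D₀ hD₀ L hL hlen z hz hz0 hne
  obtain ⟨l, hl, hllen, p, hp, h⟩ := exists_list (W := W) X (hS.isCyc X hX) L hL
  set a : AQ W X := mkA (j := 1) ⟨D₀, hS.isCyc X hX D₀ hD₀, rfl⟩ with ha
  set m : AQ W X := mkA (j := j) ⟨z, hz, rfl⟩ with hm
  have hm0 : m ≠ 0 := fun h => hne (congrArg Subtype.val h)
  obtain ⟨lam, hlam⟩ := exists_retract ℝ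
  have hm1 : (1 : ℝ) ⊗ₜ[ℚ] m ≠ 0 := by
    intro h
    have h1 := congrArg (lamS lam) h
    rw [lamS_tmul, hlam, one_smul, map_zero] at h1
    exact hm0 h1
  have hzero : a * p * m = 0 := by
    apply Subtype.ext
    show W.cl X D₀ * p * W.cl X z = 0
    rw [mul_assoc, ← (h j z hz).2, ← W.cl_mul, hz0]
  have key := (hrData hS hD hmid).main ⟨X, hX⟩ j hj hj2 ((1 : ℝ) ⊗ₜ[ℚ] a)
    (Cone.of ⟨D₀, hD₀, a, rfl, rfl⟩) l (fun v hv => Cone.of (hl v hv))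
    (by rw [hllen, hlen]) ((1 : ℝ) ⊗ₜ[ℚ] m) (mem_grR ⟨z, hz, rfl⟩ 1) hm1 (by
      intro w _
      have e1 : (1 : ℝ) ⊗ₜ[ℚ] m * w * ((1 : ℝ) ⊗ₜ[ℚ] a * l.prod) =
          w * ((1 : ℝ) ⊗ₜ[ℚ] (a * p * m)) := by
        rw [hp]
        have e2 : (1 : ℝ) ⊗ₜ[ℚ] (a * p * m) =
            ((1 : ℝ) ⊗ₜ[ℚ] a) * ((1 : ℝ) ⊗ₜ[ℚ] p) * ((1 : ℝ) ⊗ₜ[ℚ] m) := by
          rw [Algebra.TensorProduct.tmul_mul_tmul, Algebra.TensorProduct.tmul_mul_tmul, one_mul,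
            one_mul]
        rw [e2]
        ring
      rw [e1, hzero, TensorProduct.tmul_zero, mul_zero, map_zero])
  have h1 : degR W X ((1 : ℝ) ⊗ₜ[ℚ] m * (1 : ℝ) ⊗ₜ[ℚ] m * l.prod) =
      (X.V.degCycle (ops.mul z (mulList ops L z)) : ℝ) := by
    rw [hp, Algebra.TensorProduct.tmul_mul_tmul, Algebra.TensorProduct.tmul_mul_tmul, one_mul,
      one_mul, degR_tmul, one_mul, degQ_apply]
    have h2 : ((m * m * p : AQ W X) : W.H X) = W.cl X z * W.cl X (mulList ops L z) := by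
      have h3 : m * m * p = m * (p * m) := by ring
      rw [h3, (h j z hz).2]
      rfl
    rw [h2, tr_mul_cl hz (h j z hz).1 (by rw [hlen]; omega), ret_ratCast (retr_one W)]
  rw [h1] at key
  exact_mod_cast key

end Pool.Agent.R910.Mix
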