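import Mathlib

/-!
# Positive definite forms along a path of nondegenerate forms
-/

open Set

namespace Pool.Agent.R910.Mix

section

variable {V : Type*} [AddCommGroup V] [Module ℝ V] [Module.Finite ℝ V]

/-- A semidefinite symmetric form: isotropic vectors are in the radical. -/
lemma radical_of_semidef (B : V →ₗ[ℝ] V →ₗ[ℝ] ℝ) (hs : ∀ x y, B x y = B y x)
    (hpos : ∀ x, 0 ≤ B x x) {x : V} (hx : B x x = 0) (y : V) : B x y = 0 := by
  by_contra hne
  have key : ∀ t : ℝ, 0 ≤ 2 * t * B x y + t ^ 2 * B y y := by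
    intro t
    have h1 := hpos (x + t • y)
    simp only [map_add, LinearMap.add_apply, map_smul, LinearMap.smul_apply, smul_eq_mul] at h1
    rw [hx, hs y x] at h1
    nlinarith
  rcases eq_or_lt_of_le (hpos y) with h0 | h0
  · have h1 := key (-(B x y))
    rw [← h0] at h1
    have : 0 < B x y ^ 2 := by positivity
    nlinarith
  · have h1 := key (-(B x y) / B y y)
    have h2 : 2 * (-(B x y) / B y y) * B x y + (-(B x y) / B y y) ^ 2 * B y y =
        -(B x y ^ 2 / B y y) := by
      field_simp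
      ring
    rw [h2] at h1
    have : 0 < B x y ^ 2 / B y y := by positivity
    linarith

/-- **Positivity along a path of nondegenerate forms.** -/
theorem posDef_of_path (B : ℝ → V →ₗ[ℝ] V →ₗ[ℝ] ℝ)
    (hcont : ∀ x y, ContinuousOn (fun s => B s x y) (Icc 0 1))
    (hs : ∀ s x y, B s x y = B s y x)
    (hnd : ∀ s ∈ Icc (0 : ℝ) 1, ∀ x, (∀ y, B s x y = 0) → x = 0)
    (h0 : ∀ x, x ≠ 0 → 0 < B 0 x x) : ∀ x, x ≠ 0 → 0 < B 1 x x := by
  classical
  set b := Module.finBasis ℝ V with hb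
  set d := Module.finrank ℝ V
  set F : ℝ × (Fin d → ℝ) → ℝ := fun p => ∑ i, ∑ j, p.2 i * p.2 j * B p.1 (b i) (b j) with hF
  have hFB : ∀ s c, F (s, c) = B s (b.equivFun.symm c) (b.equivFun.symm c) := by
    intro s c
    rw [Module.Basis.equivFun_symm_apply]
    simp only [hF, map_sum, map_smul, LinearMap.sum_apply, LinearMap.smul_apply, smul_eq_mul,
      Finset.mul_sum]
    rw [Finset.sum_comm]
    apply Finset.sum_congr rfl
    intro i _
    apply Finset.sum_congr rfl
    intro j _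
    ring
  have hFcont : ContinuousOn F (Icc 0 1 ×ˢ univ) := by
    apply continuousOn_finset_sum
    intro i _
    apply continuousOn_finset_sum
    intro j _
    apply ContinuousOn.mul
    · exact (by fun_prop : Continuous fun p : ℝ × (Fin d → ℝ) => p.2 i * p.2 j).continuousOn
    · exact (hcont (b i) (b j)).comp continuousOn_fst (fun p hp => hp.1)
  by_contra hcon
  push Not at hcon
  obtain ⟨x₁, hx₁, hx₁'⟩ := hcon
  -- the sphere
  set S : Set (Fin d → ℝ) := Metric.sphere 0 1 with hS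
  have hSc : IsCompact S := isCompact_sphere _ _
  set K : Set (ℝ × (Fin d → ℝ)) := Icc 0 1 ×ˢ S with hK
  have hKc : IsCompact K := isCompact_Icc.prod hSc
  set Bad : Set (ℝ × (Fin d → ℝ)) := K ∩ F ⁻¹' Iic 0 with hBad
  have hBadc : IsCompact Bad := by
    apply hKc.of_isClosed_subset _ inter_subset_left
    exact (hFcont.mono (Set.prod_mono_right (subset_univ _))).preimage_isClosed_of_isClosed
      hKc.isClosed isClosed_Iic
  have hnorm : ∀ x : V, x ≠ 0 → ∃ c ∈ S, ∃ r : ℝ, 0 < r ∧ b.equivFun.symm c = r • x := by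
    intro x hx
    have h1 : b.equivFun x ≠ 0 := by
      intro h; exact hx ((map_eq_zero_iff _ b.equivFun.injective).1 h)
    have h2 : 0 < ‖b.equivFun x‖ := norm_pos_iff.2 h1
    refine ⟨‖b.equivFun x‖⁻¹ • b.equivFun x, ?_, ‖b.equivFun x‖⁻¹, inv_pos.2 h2, ?_⟩
    · rw [hS, mem_sphere_zero_iff_norm, norm_smul, norm_inv, norm_norm, inv_mul_cancel₀ h2.ne']
    · rw [map_smul, LinearEquiv.symm_apply_apply]
  have hBadne : (Prod.fst '' Bad).Nonempty := by
    obtain ⟨c, hc, r, hr, hcr⟩ := hnorm x₁ hx₁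
    refine ⟨1, (1, c), ⟨⟨⟨zero_le_one, le_rfl⟩, hc⟩, ?_⟩, rfl⟩
    show F (1, c) ≤ 0
    rw [hFB, hcr]
    simp only [map_smul, LinearMap.smul_apply, smul_eq_mul]
    have : r * (r * B 1 x₁ x₁) = r ^ 2 * B 1 x₁ x₁ := by ring
    rw [this]
    exact mul_nonpos_of_nonneg_of_nonpos (by positivity) hx₁'
  have hTc : IsCompact (Prod.fst '' Bad) := hBadc.image continuous_fst
  obtain ⟨⟨s, c⟩, ⟨⟨hs01, hcS⟩, hsc⟩, hseq⟩ := hTc.sInf_mem hBadne
  replace hseq : s = sInf (Prod.fst '' Bad) := hseq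
  replace hs01 : s ∈ Icc (0 : ℝ) 1 := hs01
  replace hcS : c ∈ S := hcS
  replace hsc : F (s, c) ≤ 0 := hsc
  have hc0 : b.equivFun.symm c ≠ 0 := by
    intro h
    have h1 : c = 0 := (map_eq_zero_iff _ b.equivFun.symm.injective).1 h
    rw [hS, mem_sphere_zero_iff_norm, h1, norm_zero] at hcS
    exact zero_ne_one hcS
  have hspos : 0 < s := by
    rcases eq_or_lt_of_le hs01.1 with h1 | h1
    · exfalso
      rw [hFB, ← h1] at hsc
      exact absurd (h0 _ hc0) (not_lt.2 hsc)
    · exact h1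
  -- semidefinite at `s`
  have hsemi : ∀ x, 0 ≤ B s x x := by
    intro x
    by_cases hx : x = 0
    · rw [hx, map_zero]
    have h1 : ∀ t ∈ Ico (0 : ℝ) s, 0 ≤ B t x x := by
      intro t ht
      by_contra hneg
      push Not at hneg
      obtain ⟨c', hc', r, hr, hcr⟩ := hnorm x hx
      have h2 : t ∈ Prod.fst '' Bad := by
        refine ⟨(t, c'), ⟨⟨⟨ht.1, ht.2.le.trans hs01.2⟩, hc'⟩, ?_⟩, rfl⟩
        show F (t, c') ≤ 0
        rw [hFB, hcr]
        simp only [map_smul, LinearMap.smul_apply, smul_eq_mul]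
        have : r * (r * B t x x) = r ^ 2 * B t x x := by ring
        rw [this]
        exact mul_nonpos_of_nonneg_of_nonpos (by positivity) hneg.le
      have h3 := csInf_le hTc.bddBelow h2
      rw [← hseq] at h3
      exact absurd ht.2 (not_lt.2 h3)
    have h2 : ContinuousWithinAt (fun t => B t x x) (Ico 0 s) s :=
      ((hcont x x) s hs01).mono (fun t ht => ⟨ht.1, ht.2.le.trans hs01.2⟩)
    have h3 : s ∈ closure (Ico (0 : ℝ) s) := by
      rw [closure_Ico hspos.ne]
      exact ⟨hspos.le, le_rfl⟩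
    have : (nhdsWithin s (Ico 0 s)).NeBot := mem_closure_iff_nhdsWithin_neBot.1 h3
    exact ge_of_tendsto h2.tendsto (eventually_nhdsWithin_of_forall h1)
  have hzero : B s (b.equivFun.symm c) (b.equivFun.symm c) = 0 :=
    le_antisymm (by rw [← hFB]; exact hsc) (hsemi _)
  exact hc0 (hnd s hs01 _ (fun y => radical_of_semidef (B s) (hs s) hsemi hzero y))

end

end Pool.Agent.R910.Mix
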