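import Pool.Agent.R910.Dom.Num
import Pool.Agent.R910.Mix.Ind
import Pool.Agent.R910.Mix.Defs
import Pool.Agent.W534.Hyp

/-!
# Algebraic classes with real coefficients
-/

open CategoryTheory AlgebraicGeometry TensorProduct

set_option linter.unusedSectionVars false

universe u v

namespace Pool.Agent.R910.Mix

open Pool.Agent.H914 Pool.Agent.H447 Pool.Agent.R910.Dom VarClass Obj WeilCohomology

variable {k : Type u} [Field k] {𝒱 : VarClass k} {ops : CycleOps 𝒱}
  (W : WeilCohomology.{u, v} ops) (X : 𝒱.Obj)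

/-- The cohomology as an algebra over `ℚ`. -/
noncomputable abbrev ratAlg : Algebra ℚ (W.H X) := Algebra.compHom (W.H X) (algebraMap ℚ W.K)

attribute [local instance] ratAlg

/-- All algebraic classes. -/
def algSet : Set (W.H X) := ⋃ j, algClasses W X j

lemma algSet_comm : ∀ a ∈ algSet W X, ∀ b ∈ algSet W X, a * b = b * a := by
  intro a ha b _
  obtain ⟨j, z, hz, rfl⟩ := Set.mem_iUnion.1 ha
  exact W.even_comm (W.cl_mem hz) b

/-- The commutative ring generated by the algebraic classes. -/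
abbrev AQ : Type v := Algebra.adjoin ℚ (algSet W X)

open scoped IsMulCommutative in
noncomputable instance : CommRing (AQ W X) :=
  have := Algebra.isMulCommutative_adjoin ℚ (algSet_comm W X)
  inferInstance

/-- The same with real coefficients. -/
abbrev VR : Type v := ℝ ⊗[ℚ] (AQ W X)

variable {W X}

lemma coe_smul' (q : ℚ) (a : AQ W X) : ((q • a : AQ W X) : W.H X) = (q : W.K) • (a : W.H X) := rfl

/-- An algebraic class as an element of the ring. -/
def mkA {j : ℕ} {a : W.H X} (ha : a ∈ algClasses W X j) : AQ W X :=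
  ⟨a, Algebra.subset_adjoin (Set.mem_iUnion.2 ⟨j, ha⟩)⟩

variable (W X)

/-- A retraction. -/
noncomputable def retr : W.K →ₗ[ℚ] ℚ := (exists_retract W.K).choose

lemma retr_one : retr W 1 = 1 := (exists_retract W.K).choose_spec

/-- The degree with rational values. -/
noncomputable def degQ : AQ W X →ₗ[ℚ] ℚ where
  toFun a := retr W (W.tr X (a : W.H X))
  map_add' a b := by rw [Subalgebra.coe_add, map_add, map_add]
  map_smul' q a := by
    rw [coe_smul', map_smul, smul_eq_mul, mul_comm, ret_mul, RingHom.id_apply, smul_eq_mul,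
      mul_comm]

/-- The degree with real values. -/
noncomputable def degR : VR W X →ₗ[ℝ] ℝ :=
  (TensorProduct.AlgebraTensorModule.rid ℚ ℝ ℝ).toLinearMap ∘ₗ (degQ W X).baseChange ℝ

variable {W X}

lemma degQ_apply (a : AQ W X) : degQ W X a = retr W (W.tr X (a : W.H X)) := rfl

lemma tr_eq {a : AQ W X} (h : ∃ q : ℚ, W.tr X (a : W.H X) = (q : W.K)) :
    W.tr X (a : W.H X) = (degQ W X a : W.K) := by
  obtain ⟨q, hq⟩ := h
  rw [degQ_apply, hq, ret_ratCast (retr_one W)]

lemma degR_tmul (r : ℝ) (a : AQ W X) : degR W X (r ⊗ₜ a) = r * (degQ W X a : ℝ) := by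
  rw [degR, LinearMap.comp_apply, LinearMap.baseChange_tmul]
  show (TensorProduct.AlgebraTensorModule.rid ℚ ℝ ℝ) _ = _
  rw [TensorProduct.AlgebraTensorModule.rid_tmul, Rat.smul_def, mul_comm]

/-- The specialization of the real coefficients. -/
noncomputable def lamS (lam : ℝ →ₗ[ℚ] ℚ) : VR W X →ₗ[ℚ] AQ W X :=
  (TensorProduct.lid ℚ (AQ W X)).toLinearMap ∘ₗ LinearMap.rTensor (AQ W X) lam

lemma lamS_tmul (lam : ℝ →ₗ[ℚ] ℚ) (r : ℝ) (a : AQ W X) : lamS lam (r ⊗ₜ a) = lam r • a := by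
  rw [lamS, LinearMap.comp_apply, LinearMap.rTensor_tmul]
  exact TensorProduct.lid_tmul a (lam r)

lemma lamS_smul (lam : ℝ →ₗ[ℚ] ℚ) (r : ℝ) (v : VR W X) :
    lamS lam (r • v) = lamS (lam ∘ₗ LinearMap.mulLeft ℚ r) v := by
  induction v using TensorProduct.induction_on with
  | zero => rw [smul_zero, map_zero, map_zero]
  | tmul s a =>
    rw [TensorProduct.smul_tmul', lamS_tmul, lamS_tmul]
    rfl
  | add v w hv hw => rw [smul_add, map_add, map_add, hv, hw]

lemma lamS_mul (lam : ℝ →ₗ[ℚ] ℚ) (a : AQ W X) (v : VR W X) :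
    lamS lam ((1 ⊗ₜ a) * v) = a * lamS lam v := by
  induction v using TensorProduct.induction_on with
  | zero => rw [mul_zero, map_zero, mul_zero]
  | tmul s b =>
    rw [Algebra.TensorProduct.tmul_mul_tmul, one_mul, lamS_tmul, lamS_tmul, mul_smul_comm]
  | add v w hv hw => rw [mul_add, map_add, map_add, hv, hw, mul_add]

lemma lamS_pow_mul (lam : ℝ →ₗ[ℚ] ℚ) (a : AQ W X) (n : ℕ) (v : VR W X) :
    lamS lam ((1 ⊗ₜ a) ^ n * v) = a ^ n * lamS lam v := by
  rw [Algebra.TensorProduct.tmul_pow, one_pow, lamS_mul]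

lemma lam_degR (lam : ℝ →ₗ[ℚ] ℚ) (v : VR W X) : lam (degR W X v) = degQ W X (lamS lam v) := by
  induction v using TensorProduct.induction_on with
  | zero => rw [map_zero, map_zero, map_zero, map_zero]
  | tmul r a =>
    rw [degR_tmul, lamS_tmul, map_smul, smul_eq_mul]
    have h1 : r * (degQ W X a : ℝ) = (degQ W X a) • r := by rw [Rat.smul_def, mul_comm]
    rw [h1, map_smul, smul_eq_mul, mul_comm]
  | add v w hv hw => rw [map_add, map_add, map_add, map_add, hv, hw]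

/-- Separation by the specializations. -/
lemma sep {v : VR W X} (h : ∀ lam : ℝ →ₗ[ℚ] ℚ, lamS lam v = 0) : v = 0 := by
  classical
  apply (TensorProduct.equivFinsuppOfBasisLeft (Module.Basis.ofVectorSpace ℚ ℝ)
    (N := AQ W X)).injective
  rw [map_zero]
  ext i
  rw [TensorProduct.equivFinsuppOfBasisLeft_apply]
  rw [Finsupp.coe_zero, Pi.zero_apply]
  exact congrArg Subtype.val (h ((Module.Basis.ofVectorSpace ℚ ℝ).coord i))

/-- Expansion. -/
lemma expand (v : VR W X) : ∃ (ι : Type) (s : Finset ι) (e : ι → ℝ) (lam : ι → (ℝ →ₗ[ℚ] ℚ)),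
    v = ∑ i ∈ s, (e i) ⊗ₜ[ℚ] (lamS (lam i) v) := by
  classical
  set ℬ := Module.Basis.ofVectorSpace ℚ ℝ with hℬ
  set E := TensorProduct.equivFinsuppOfBasisLeft ℬ (N := AQ W X) with hE
  refine ⟨_, (E v).support, ℬ, fun i => ℬ.coord i, ?_⟩
  conv_lhs => rw [← E.symm_apply_apply v]
  rw [TensorProduct.equivFinsuppOfBasisLeft_symm_apply, Finsupp.sum]
  apply Finset.sum_congr rfl
  intro i _
  congr 1
  rw [TensorProduct.equivFinsuppOfBasisLeft_apply]
  rfl

variable (W X)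

/-- The algebraic classes of codimension `j` with real coefficients. -/
noncomputable def grR (j : ℕ) : Submodule ℝ (VR W X) :=
  Submodule.span ℝ ((fun a : AQ W X => (1 : ℝ) ⊗ₜ[ℚ] a) '' {a | (a : W.H X) ∈ algClasses W X j})

variable {W X}

lemma mem_grR {j : ℕ} {a : AQ W X} (ha : (a : W.H X) ∈ algClasses W X j) (r : ℝ) :
    r ⊗ₜ[ℚ] a ∈ grR W X j := by
  have h1 : r ⊗ₜ[ℚ] a = r • ((1 : ℝ) ⊗ₜ[ℚ] a) := by
    rw [TensorProduct.smul_tmul', smul_eq_mul, mul_one]
  rw [h1]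
  exact Submodule.smul_mem _ _ (Submodule.subset_span ⟨a, ha, rfl⟩)

lemma lamS_mem {j : ℕ} {v : VR W X} (hv : v ∈ grR W X j) :
    ∀ lam : ℝ →ₗ[ℚ] ℚ, (lamS lam v : W.H X) ∈ algClasses W X j := by
  refine Submodule.span_induction
    (p := fun v _ => ∀ lam : ℝ →ₗ[ℚ] ℚ, (lamS lam v : W.H X) ∈ algClasses W X j) ?_ ?_ ?_ ?_ hv
  · rintro _ ⟨a, ha, rfl⟩ lam
    show (lamS lam ((1 : ℝ) ⊗ₜ[ℚ] a) : W.H X) ∈ _
    rw [lamS_tmul, coe_smul']
    exact alg_smul _ ha
  · intro lam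
    rw [map_zero]
    exact alg_zero j
  · intro v w _ _ hv hw lam
    rw [map_add]
    exact alg_add (hv lam) (hw lam)
  · intro r v _ hv lam
    rw [lamS_smul]
    exact hv _

lemma grR_mul {i j : ℕ} {v w : VR W X} (hv : v ∈ grR W X i) (hw : w ∈ grR W X j) :
    v * w ∈ grR W X (i + j) := by
  refine Submodule.span_induction (p := fun v _ => v * w ∈ grR W X (i + j)) ?_ ?_ ?_ ?_ hv
  · rintro _ ⟨a, ha, rfl⟩
    refine Submodule.span_induction (p := fun w _ => (1 : ℝ) ⊗ₜ[ℚ] a * w ∈ grR W X (i + j))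
      ?_ ?_ ?_ ?_ hw
    · rintro _ ⟨b, hb, rfl⟩
      show (1 : ℝ) ⊗ₜ[ℚ] a * (1 : ℝ) ⊗ₜ[ℚ] b ∈ _
      rw [Algebra.TensorProduct.tmul_mul_tmul]
      exact mem_grR (alg_mul ha hb) _
    · rw [mul_zero]; exact Submodule.zero_mem _
    · intro x y _ _ hx hy
      rw [mul_add]; exact Submodule.add_mem _ hx hy
    · intro c x _ hx
      rw [mul_smul_comm]; exact Submodule.smul_mem _ _ hx
  · rw [zero_mul]; exact Submodule.zero_mem _
  · intro x y _ _ hx hy
    rw [add_mul]; exact Submodule.add_mem _ hx hy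
  · intro c x _ hx
    rw [smul_mul_assoc]; exact Submodule.smul_mem _ _ hx

/-- Nondegeneracy over the reals. -/
lemma nondegR {j : ℕ} (hj : j ≤ X.dim) (hD : HomEqNumIn W X (X.dim - j)) {y : VR W X}
    (hy : y ∈ grR W X (X.dim - j)) (h0 : ∀ x ∈ grR W X j, degR W X (x * y) = 0) : y = 0 := by
  apply sep
  intro lam
  obtain ⟨z, hz, hzy⟩ := lamS_mem hy lam
  apply Subtype.ext
  show (lamS lam y : W.H X) = 0
  rw [← hzy]
  apply hD z hz
  intro w hw
  rw [show X.dim - (X.dim - j) = j by omega] at hw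
  have h1 := h0 _ (mem_grR (a := mkA ⟨w, hw, rfl⟩) (W := W) ⟨w, hw, rfl⟩ 1)
  have h2 := lam_degR lam ((1 : ℝ) ⊗ₜ[ℚ] (mkA (W := W) ⟨w, hw, rfl⟩) * y)
  rw [h1, map_zero, lamS_mul] at h2
  have h3 : W.tr X (W.cl X w * (lamS lam y : W.H X)) = (0 : W.K) := by
    have h4 := tr_eq (W := W) (X := X) (a := mkA (W := W) ⟨w, hw, rfl⟩ * lamS lam y) (by
      show ∃ q : ℚ, W.tr X (W.cl X w * (lamS lam y : W.H X)) = (q : W.K)
      exact alg_rat (W := W) (i := j) (j := X.dim - j) (by omega) ⟨w, hw, rfl⟩ (lamS_mem hy lam))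
    rw [← h2, Rat.cast_zero] at h4
    exact h4
  rw [← hzy, W.even_comm (W.cl_mem hw), tr_mul_cl hz hw (by omega)] at h3
  exact_mod_cast h3

/-- Hard Lefschetz over the reals, for a rational divisor. -/
lemma hlR {D : X.Cycles} (hHL : HardLefschetz W X D) {a : AQ W X}
    (ha : (a : W.H X) = W.cl X D) {j : ℕ} (hj : 2 * j ≤ X.dim) {x : VR W X}
    (hx : x ∈ grR W X j) (h0 : ((1 : ℝ) ⊗ₜ[ℚ] a) ^ (X.dim - 2 * j) * x = 0) : x = 0 := by
  apply sep
  intro lam
  have h1 := lamS_pow_mul lam a (X.dim - 2 * j) x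
  rw [h0, map_zero] at h1
  obtain ⟨z, hz, hzx⟩ := lamS_mem hx lam
  apply Subtype.ext
  apply (hHL (2 * j) hj).1 _ (by rw [← hzx]; exact W.cl_mem hz)
  have h2 : ∀ (n : ℕ) (b : AQ W X), (lop W X D ^ n) (b : W.H X) = ((a ^ n * b : AQ W X) : W.H X) := by
    intro n b
    induction n with
    | zero => rw [pow_zero, pow_zero, one_mul]; rfl
    | succ n ih =>
      rw [pow_succ', Module.End.mul_apply, ih, LinearMap.mulLeft_apply, ← ha, pow_succ', mul_assoc]
      rfl
  exact (h2 _ _).trans (congrArg Subtype.val h1.symm)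

lemma lop_pow_coe {D : X.Cycles} {a : AQ W X} (ha : (a : W.H X) = W.cl X D) (n : ℕ)
    (b : AQ W X) : (lop W X D ^ n) (b : W.H X) = ((a ^ n * b : AQ W X) : W.H X) := by
  induction n with
  | zero => rw [pow_zero, pow_zero, one_mul]; rfl
  | succ n ih =>
    rw [pow_succ', Module.End.mul_apply, ih, LinearMap.mulLeft_apply, ← ha, pow_succ', mul_assoc]
    rfl

lemma degR_pow {D : X.Cycles} (hD : X.IsCyc 1 D) {a : AQ W X} (ha : (a : W.H X) = W.cl X D) :
    degR W X (((1 : ℝ) ⊗ₜ[ℚ] a) ^ X.dim) =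
      (X.V.degCycle (divPow ops D X.dim X.V.fundCycle) : ℝ) := by
  have h1 : W.tr X ((a ^ X.dim : AQ W X) : W.H X) =
      (X.V.degCycle (divPow ops D X.dim X.V.fundCycle) : W.K) := by
    rw [← W.tr_cl, cl_divPow, W.cl_fund]
    · have := lop_pow_coe ha X.dim (1 : AQ W X)
      rw [mul_one] at this
      rw [← this]
      rfl
    · have := divPow_mem (ops := ops) hD X.dim X.V.fundCycle_mem
      rwa [zero_add] at this
  rw [Algebra.TensorProduct.tmul_pow, one_pow, degR_tmul, one_mul, degQ_apply, h1,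
    ret_ratCast (retr_one W)]

/-- The classes of codimension zero. -/
lemma grR_zero {D : X.Cycles} (hD : X.IsCyc 1 D)
    (hpos : 0 < X.V.degCycle (divPow ops D X.dim X.V.fundCycle)) :
    grR W X 0 = Submodule.span ℝ {1} := by
  have hone : (1 : W.H X) ∈ algClasses W X 0 := ⟨_, X.V.fundCycle_mem, W.cl_fund X⟩
  have htop : W.tr X ((lop W X D ^ X.dim) 1) =
      (X.V.degCycle (divPow ops D X.dim X.V.fundCycle) : W.K) := by
    rw [← W.tr_cl, cl_divPow, W.cl_fund]
    have := divPow_mem (ops := ops) hD X.dim X.V.fundCycle_mem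
    rwa [zero_add] at this
  apply le_antisymm
  · rw [grR, Submodule.span_le]
    rintro _ ⟨a, ha, rfl⟩
    obtain ⟨z, hz, hza⟩ := id ha
    have h1 : (a : W.H X) ∈ W.gr X 0 := by rw [← hza]; exact W.cl_mem hz
    rw [W.gr_zero] at h1
    obtain ⟨c, hc⟩ := Submodule.mem_span_singleton.1 h1
    obtain ⟨q, hq⟩ := alg_rat (W := W) (i := 0) (j := X.dim) (by omega) ha
      (alg_pow' hD hone (l := X.dim) (by omega))
    rw [← hc, smul_mul_assoc, one_mul, map_smul, smul_eq_mul, htop] at hq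
    have hb : (X.V.degCycle (divPow ops D X.dim X.V.fundCycle) : W.K) ≠ 0 := by
      exact_mod_cast hpos.ne'
    have hc' : c = ((q / X.V.degCycle (divPow ops D X.dim X.V.fundCycle) : ℚ) : W.K) := by
      push_cast
      rw [eq_div_iff hb, hq]
    have h2 : a = (q / X.V.degCycle (divPow ops D X.dim X.V.fundCycle)) • (1 : AQ W X) := by
      apply Subtype.ext
      rw [coe_smul', ← hc', ← hc]
      rfl
    show (1 : ℝ) ⊗ₜ[ℚ] a ∈ Submodule.span ℝ {(1 : VR W X)}
    have h3 : ∀ t : ℚ, t • ((1 : ℝ) ⊗ₜ[ℚ] (1 : AQ W X)) =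
        (t : ℝ) • ((1 : ℝ) ⊗ₜ[ℚ] (1 : AQ W X)) := by
      intro t
      rw [TensorProduct.smul_tmul', TensorProduct.smul_tmul', Rat.smul_def, smul_eq_mul]
    rw [h2, TensorProduct.tmul_smul, h3, ← Algebra.TensorProduct.one_def]
    exact Submodule.smul_mem _ _ (Submodule.mem_span_singleton_self _)
  · rw [Submodule.span_le]
    rintro _ rfl
    rw [Algebra.TensorProduct.one_def]
    exact mem_grR (a := (1 : AQ W X)) hone 1

end Pool.Agent.R910.Mix
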