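import Pool.Agent.R910.Mix.Real

/-!
# Algebraic classes with real coefficients: finiteness, hyperplane sections, positivity
-/

open CategoryTheory AlgebraicGeometry TensorProduct

set_option linter.unusedSectionVars false

universe u v

namespace Pool.Agent.R910.Mix

open Pool.Agent.H914 Pool.Agent.H447 Pool.Agent.R910.Dom Pool.Agent.W534 VarClass Obj
  WeilCohomology

variable {k : Type u} [Field k] {𝒱 : VarClass k} {ops : CycleOps 𝒱}
  {W : WeilCohomology.{u, v} ops} {X Z : 𝒱.Obj}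

attribute [local instance] ratAlg

section fin

variable (W X)

/-- The algebraic classes of codimension `j` in the ring. -/
noncomputable def AQj (j : ℕ) : Submodule ℚ (AQ W X) where
  carrier := {a | (a : W.H X) ∈ algClasses W X j}
  add_mem' ha hb := alg_add ha hb
  zero_mem' := alg_zero j
  smul_mem' q _ ha := alg_smul q ha

variable {W X}

/-- Finiteness over `ℚ`. -/
lemma finQ {D : X.Cycles} (hD : X.IsCyc 1 D) (hHL : HardLefschetz W X D) {j : ℕ}
    (hj : 2 * j ≤ X.dim) (hN : HomEqNumIn W X (X.dim - j)) : Module.Finite ℚ (AQj W X j) := by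
  classical
  obtain ⟨b, hbs, hbspan, hbli⟩ := exists_linearIndependent W.K (algClasses W X j)
  have hbfin : b.Finite := hbli.setFinite
  have : Finite b := hbfin
  set dA : AQ W X := mkA (W := W) (j := 1) ⟨D, hD, rfl⟩ with hdA
  have hdA' : (dA : W.H X) = W.cl X D := rfl
  set Φ : AQj W X j →ₗ[ℚ] (b → ℚ) := LinearMap.pi fun w =>
    (degQ W X) ∘ₗ (LinearMap.mulLeft ℚ (mkA (hbs w.2) * dA ^ (X.dim - 2 * j))) ∘ₗ
      (AQj W X j).subtype with hΦ
  refine Module.Finite.of_injective Φ ?_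
  rw [← LinearMap.ker_eq_bot, LinearMap.ker_eq_bot']
  rintro ⟨a, ha⟩ h0
  apply Subtype.ext
  apply Subtype.ext
  show (a : W.H X) = 0
  obtain ⟨z, hz, hza⟩ := id ha
  apply (hHL (2 * j) hj).1 _ (by rw [← hza]; exact W.cl_mem hz)
  set y := (lop W X D ^ (X.dim - 2 * j)) (a : W.H X) with hy
  have hyalg : y ∈ algClasses W X (X.dim - j) := alg_pow' hD ha (by omega)
  have h1 : ∀ w ∈ b, W.tr X (w * y) = 0 := by
    intro w hw
    have h2 := congrFun h0 ⟨w, hw⟩
    have h3 : degQ W X (mkA (hbs hw) * dA ^ (X.dim - 2 * j) * a) = 0 := h2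
    have h4 : ((mkA (hbs hw) * dA ^ (X.dim - 2 * j) * a : AQ W X) : W.H X) = w * y := by
      rw [mul_assoc, hy, lop_pow_coe hdA']
      rfl
    have h5 := tr_eq (W := W) (X := X) (a := mkA (hbs hw) * dA ^ (X.dim - 2 * j) * a) (by
      rw [h4]
      exact alg_rat (W := W) (i := j) (j := X.dim - j) (by omega) (hbs hw) hyalg)
    rw [h3, Rat.cast_zero, h4] at h5
    exact h5
  have h2 : ∀ w ∈ algClasses W X j, W.tr X (w * y) = 0 := by
    intro w hw
    have h3 : w ∈ Submodule.span W.K b := by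
      rw [hbspan]; exact Submodule.subset_span hw
    refine Submodule.span_induction (p := fun w _ => W.tr X (w * y) = 0) h1 ?_ ?_ ?_ h3
    · rw [zero_mul, map_zero]
    · intro u v _ _ hu hv
      rw [add_mul, map_add, hu, hv, add_zero]
    · intro c u _ hu
      rw [smul_mul_assoc, map_smul, hu, smul_zero]
  obtain ⟨z', hz', hzy⟩ := hyalg
  show y = 0
  rw [← hzy]
  apply hN z' hz'
  intro w hw
  rw [show X.dim - (X.dim - j) = j by omega] at hw
  have h3 := h2 _ ⟨w, hw, rfl⟩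
  rw [← hzy, W.even_comm (W.cl_mem hw), tr_mul_cl hz' hw (by omega)] at h3
  exact_mod_cast h3

lemma rat_tmul (q : ℚ) (r : ℝ) (a : AQ W X) : r ⊗ₜ[ℚ] (q • a) = (q : ℝ) • (r ⊗ₜ[ℚ] a) := by
  rw [TensorProduct.tmul_smul, TensorProduct.smul_tmul', TensorProduct.smul_tmul', Rat.smul_def,
    smul_eq_mul]

/-- Finiteness over `ℝ`. -/
lemma finR {D : X.Cycles} (hD : X.IsCyc 1 D) (hHL : HardLefschetz W X D) {j : ℕ}
    (hj : 2 * j ≤ X.dim) (hN : HomEqNumIn W X (X.dim - j)) : Module.Finite ℝ (grR W X j) := by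
  have hfin := finQ hD hHL hj hN
  set b := Module.finBasis ℚ (AQj W X j) with hb
  have h1 : grR W X j ≤ Submodule.span ℝ (Set.range fun i => (1 : ℝ) ⊗ₜ[ℚ] (b i : AQ W X)) := by
    rw [grR, Submodule.span_le]
    rintro _ ⟨a, ha, rfl⟩
    show (1 : ℝ) ⊗ₜ[ℚ] a ∈ Submodule.span ℝ _
    have h2 : a = ∑ i, (b.repr ⟨a, ha⟩ i) • (b i : AQ W X) := by
      have := congrArg Subtype.val (b.sum_repr ⟨a, ha⟩).symm
      rw [Submodule.coe_sum] at this
      exact this
    rw [h2, TensorProduct.tmul_sum]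
    apply Submodule.sum_mem
    intro i _
    rw [rat_tmul]
    exact Submodule.smul_mem _ _ (Submodule.subset_span ⟨i, rfl⟩)
  have h2 : Module.Finite ℝ (Submodule.span ℝ (Set.range fun i =>
      (1 : ℝ) ⊗ₜ[ℚ] (b i : AQ W X))) := Module.Finite.span_of_finite ℝ (Set.finite_range _)
  exact Module.Finite.of_injective (Submodule.inclusion h1) (Submodule.inclusion_injective h1)

end fin

section res

/-- Pull-back over `ℚ`. -/
noncomputable def mapQ (W : WeilCohomology.{u, v} ops) {Z X : 𝒱.Obj} (f : Z ⟶ X) :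
    W.H X →ₐ[ℚ] W.H Z :=
  { (W.map f).toRingHom with
    commutes' := fun q => (W.map f).commutes (algebraMap ℚ W.K q) }

lemma mapQ_apply (f : Z ⟶ X) (a : W.H X) : mapQ W f a = W.map f a := rfl

lemma mapQ_mem (f : Z ⟶ X) {a : W.H X} (ha : a ∈ Algebra.adjoin ℚ (algSet W X)) :
    mapQ W f a ∈ Algebra.adjoin ℚ (algSet W Z) := by
  have h1 : Algebra.adjoin ℚ (algSet W X) ≤
      (Algebra.adjoin ℚ (algSet W Z)).comap (mapQ W f) := by
    apply Algebra.adjoin_le
    intro a ha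
    obtain ⟨j, hj⟩ := Set.mem_iUnion.1 ha
    exact Algebra.subset_adjoin (Set.mem_iUnion.2 ⟨j, alg_map f hj⟩)
  exact h1 ha

/-- Pull-back of the rings. -/
noncomputable def resA (W : WeilCohomology.{u, v} ops) {Z X : 𝒱.Obj} (f : Z ⟶ X) :
    AQ W X →ₐ[ℚ] AQ W Z :=
  ((mapQ W f).comp (Algebra.adjoin ℚ (algSet W X)).val).codRestrict
    (Algebra.adjoin ℚ (algSet W Z)) (fun a => mapQ_mem f a.2)

lemma resA_coe (f : Z ⟶ X) (a : AQ W X) : (resA W f a : W.H Z) = W.map f (a : W.H X) := rfl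

/-- Pull-back with real coefficients. -/
noncomputable def resR (W : WeilCohomology.{u, v} ops) {Z X : 𝒱.Obj} (f : Z ⟶ X) :
    VR W X →ₐ[ℝ] VR W Z :=
  Algebra.TensorProduct.map (AlgHom.id ℝ ℝ) (resA W f)

lemma resR_tmul (f : Z ⟶ X) (r : ℝ) (a : AQ W X) :
    resR W f (r ⊗ₜ[ℚ] a) = r ⊗ₜ[ℚ] (resA W f a) := by
  rw [resR, Algebra.TensorProduct.map_tmul]
  rfl

lemma resR_mem (f : Z ⟶ X) {j : ℕ} {v : VR W X} (hv : v ∈ grR W X j) :
    resR W f v ∈ grR W Z j := by
  refine Submodule.span_induction (p := fun v _ => resR W f v ∈ grR W Z j) ?_ ?_ ?_ ?_ hv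
  · rintro _ ⟨a, ha, rfl⟩
    show resR W f ((1 : ℝ) ⊗ₜ[ℚ] a) ∈ _
    rw [resR_tmul]
    exact mem_grR (by rw [resA_coe]; exact alg_map f ha) 1
  · rw [map_zero]; exact Submodule.zero_mem _
  · intro x y _ _ hx hy
    rw [map_add]; exact Submodule.add_mem _ hx hy
  · intro c x _ hx
    rw [map_smul]; exact Submodule.smul_mem _ _ hx

lemma lamS_res (f : Z ⟶ X) (lam : ℝ →ₗ[ℚ] ℚ) (v : VR W X) :
    lamS lam (resR W f v) = resA W f (lamS lam v) := by
  induction v using TensorProduct.induction_on with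
  | zero => rw [map_zero, map_zero, map_zero, map_zero]
  | tmul r a => rw [resR_tmul, lamS_tmul, lamS_tmul, map_smul]
  | add v w hv hw => rw [map_add, map_add, map_add, map_add, hv, hw]

lemma degR_res {f : Z ⟶ X} {D : X.Cycles} {c : ℚ}
    (hc : W.cl X (ops.push f Z.V.fundCycle) = (c : W.K) • W.cl X D) {a : AQ W X}
    (ha : (a : W.H X) = W.cl X D) (v : VR W X) :
    degR W Z (resR W f v) = (c : ℝ) * degR W X (((1 : ℝ) ⊗ₜ[ℚ] a) * v) := by
  induction v using TensorProduct.induction_on with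
  | zero => rw [map_zero, map_zero, mul_zero, map_zero, mul_zero]
  | tmul r b =>
    rw [resR_tmul, degR_tmul, Algebra.TensorProduct.tmul_mul_tmul, one_mul, degR_tmul, degQ_apply,
      degQ_apply, resA_coe]
    have h1 : W.tr Z (W.map f (b : W.H X)) = (c : W.K) * W.tr X ((a * b : AQ W X) : W.H X) := by
      have h2 := W.tr_push f 1 (b : W.H X)
      rw [one_mul, ← W.cl_fund Z, ← W.cl_push, hc, smul_mul_assoc, map_smul, smul_eq_mul,
        ← ha] at h2
      exact h2.symm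
    rw [h1, mul_comm (c : W.K), ret_mul]
    push_cast
    ring
  | add v w hv hw => rw [map_add, map_add, mul_add, map_add, mul_add, hv, hw]

/-- The restriction of a class whose product with the divisor vanishes. -/
lemma map_eq_zero {f : Z ⟶ X} {D : X.Cycles} (hf : IsSection W f D) {r : ℕ} (hr : Z.dim < r)
    {z : W.H X} (hz : z ∈ W.gr X r) (h0 : W.cl X D * z = 0) : W.map f z = 0 := by
  obtain ⟨hdim, ⟨c, hc, hcl⟩, hWL⟩ := hf
  have hpush : W.push f (W.map f z) = 0 := by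
    have h1 := W.push_mul f 1 z
    rw [one_mul, ← W.cl_fund Z, ← W.cl_push, hcl, smul_mul_assoc, h0, smul_zero] at h1
    exact h1
  apply W.nondeg
  intro c'
  refine gr_induction (W.isInternal Z) (p := fun c' => W.tr Z (W.map f z * c') = 0) ?_ ?_ c'
  · intro t c' hc'
    by_cases hrt : r + t = 2 * Z.dim
    · obtain ⟨a, _, rfl⟩ := hWL t (by omega) c' hc'
      rw [← W.tr_push, hpush, zero_mul, map_zero]
    · exact W.tr_eq_zero (W.mul_mem (W.map_mem f hz) hc') hrt
  · intro c' d hc' hd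
    rw [mul_add, map_add, hc', hd, add_zero]

lemma prim_res {f : Z ⟶ X} {D : X.Cycles} (hD : X.IsCyc 1 D) (hf : IsSection W f D)
    {a : AQ W X} (ha : (a : W.H X) = W.cl X D) {j : ℕ} (hj : 2 * j < X.dim) {x : VR W X}
    (hx : x ∈ grR W X j) (h0 : ((1 : ℝ) ⊗ₜ[ℚ] a) ^ (X.dim - 2 * j + 1) * x = 0) :
    resR W f (((1 : ℝ) ⊗ₜ[ℚ] a) ^ (X.dim - 2 * j) * x) = 0 := by
  apply sep
  intro lam
  rw [lamS_res, lamS_pow_mul]
  apply Subtype.ext
  rw [resA_coe]
  have h1 := lamS_pow_mul lam a (X.dim - 2 * j + 1) x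
  rw [h0, map_zero] at h1
  have h2 := lamS_mem hx lam
  have h3 : ((a ^ (X.dim - 2 * j) * lamS lam x : AQ W X) : W.H X) ∈
      algClasses W X (X.dim - j) := by
    rw [← lop_pow_coe ha]
    exact alg_pow' hD h2 (by omega)
  obtain ⟨z, hz, hz'⟩ := h3
  apply map_eq_zero hf (r := 2 * (X.dim - j)) (by have := hf.1; omega)
  · rw [← hz']; exact W.cl_mem hz
  · have h4 : W.cl X D * ((a ^ (X.dim - 2 * j) * lamS lam x : AQ W X) : W.H X) =
        ((a ^ (X.dim - 2 * j + 1) * lamS lam x : AQ W X) : W.H X) := by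
      rw [← ha, pow_succ', mul_assoc]
      rfl
    rw [h4, ← h1]
    rfl

end res

section mid

/-- A real quadratic form in diagonal form. -/
lemma sum_sq_pos {n : ℕ} {c : Fin n → ℝ} (hc : ∀ k, 0 < c k) {r : Fin n → ℝ} (hr : r ≠ 0) :
    0 < ∑ k, r k * r k * c k := by
  obtain ⟨k, hk⟩ := Function.ne_iff.1 hr
  apply Finset.sum_pos'
  · intro i _
    exact mul_nonneg (mul_self_nonneg _) (hc i).le
  · exact ⟨k, Finset.mem_univ _, mul_pos (mul_self_pos.2 hk) (hc k)⟩

/-- Orthogonal bases. -/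
lemma exists_ortho {M : Type*} [AddCommGroup M] [Module ℚ M] [Module.Finite ℚ M]
    (B : LinearMap.BilinForm ℚ M) (h : ∀ x y, B x y = B y x) :
    ∃ v : Module.Basis (Fin (Module.finrank ℚ M)) ℚ M, ∀ i j, i ≠ j → B (v i) (v j) = 0 := by
  letI : Invertible (2 : ℚ) := invertibleOfNonzero two_ne_zero
  obtain ⟨v, hv⟩ := LinearMap.BilinForm.exists_orthogonal_basis (K := ℚ) (V := M) (B := B)
    ⟨fun x y => h x y⟩
  exact ⟨v, fun i j hij => hv hij⟩

/-- **Positivity with real coefficients.** -/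
lemma midR {D : X.Cycles} {j : ℕ} (hj : X.dim = 2 * j) (hH : HodgeTypeIn W X D j) {a : AQ W X}
    (ha : (a : W.H X) = W.cl X D) {x : VR W X} (hx : x ∈ grR W X j) (hx0 : x ≠ 0)
    (hp : ((1 : ℝ) ⊗ₜ[ℚ] a) * x = 0) : 0 < (-1 : ℝ) ^ j * degR W X (x * x) := by
  classical
  -- primitive classes
  let P : Submodule ℚ (AQ W X) :=
    { carrier := {b | (b : W.H X) ∈ algClasses W X j ∧ a * b = 0}
      add_mem' := fun {b c} hb hc => ⟨alg_add hb.1 hc.1, by rw [mul_add, hb.2, hc.2, add_zero]⟩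
      zero_mem' := ⟨alg_zero j, mul_zero a⟩
      smul_mem' := fun q b hb => ⟨alg_smul q hb.1, by rw [mul_smul_comm, hb.2, smul_zero]⟩ }
  have hpos : ∀ b ∈ P, b ≠ 0 → 0 < (-1 : ℚ) ^ j * degQ W X (b * b) := by
    rintro b ⟨⟨z, hz, hzb⟩, hb2⟩ hb0
    have h1 := hH z hz (by
      rw [cl_divPow, show X.dim - 2 * j + 1 = 1 by omega, hzb, lop_pow_coe ha, pow_one, hb2]
      rfl) (by
      rw [hzb]
      intro h
      exact hb0 (Subtype.ext h))
    have h2 : W.tr X (W.cl X z * W.cl X (divPow ops D (X.dim - 2 * j) z)) =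
        (X.V.degCycle (ops.mul z (divPow ops D (X.dim - 2 * j) z)) : W.K) := by
      apply tr_mul_cl (q := X.dim - j) hz
      · have := z
        rw [show X.dim - 2 * j = 0 by omega]
        show X.IsCyc (X.dim - j) z
        rwa [show X.dim - j = j by omega]
      · omega
    rw [cl_divPow, show X.dim - 2 * j = 0 by omega, pow_zero, Module.End.one_apply, hzb] at h2
    rw [show X.dim - 2 * j = 0 by omega] at h1
    have h3 : degQ W X (b * b) = X.V.degCycle (ops.mul z (divPow ops D 0 z)) := by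
      rw [degQ_apply]
      have h4 : W.tr X ((b * b : AQ W X) : W.H X) =
          (X.V.degCycle (ops.mul z (divPow ops D 0 z)) : W.K) := h2
      rw [h4, ret_ratCast (retr_one W)]
    rw [h3]
    exact h1
  obtain ⟨ι, s, e, lam, hexp⟩ := expand x
  set p : ι → AQ W X := fun i => lamS (lam i) x with hpdef
  have hpP : ∀ i, p i ∈ P := by
    intro i
    refine ⟨lamS_mem hx (lam i), ?_⟩
    rw [← lamS_mul, hp, map_zero]
  set M : Submodule ℚ (AQ W X) := Submodule.span ℚ (s.image p : Set (AQ W X)) with hM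
  have hMP : M ≤ P := by
    rw [hM, Submodule.span_le]
    intro b hb
    obtain ⟨i, _, rfl⟩ := Finset.mem_image.1 hb
    exact hpP i
  have : Module.Finite ℚ M := Module.Finite.span_of_finite ℚ (Finset.finite_toSet _)
  set B : LinearMap.BilinForm ℚ M :=
    ((LinearMap.mul ℚ (AQ W X)).compr₂ (degQ W X)).domRestrict₁₂ M M with hB
  have hBapply : ∀ b c : M, B b c = degQ W X ((b : AQ W X) * c) := fun b c => rfl
  obtain ⟨v, hv⟩ := exists_ortho B (fun b c => by rw [hBapply, hBapply, mul_comm])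
  -- coordinates
  have hpM : ∀ i ∈ s, p i ∈ M := fun i hi =>
    Submodule.subset_span (Finset.mem_coe.2 (Finset.mem_image_of_mem p hi))
  set r : Fin (Module.finrank ℚ M) → ℝ := fun l =>
    ∑ i ∈ s.attach, e i * (v.repr ⟨p i, hpM i i.2⟩ l : ℝ) with hr
  have hxr : x = ∑ l, (r l) ⊗ₜ[ℚ] (v l : AQ W X) := by
    conv_lhs => rw [hexp]
    rw [← Finset.sum_attach]
    have h1 : ∀ i ∈ s.attach, (e i) ⊗ₜ[ℚ] (lamS (lam i) x) =
        ∑ l, (e i * (v.repr ⟨p i, hpM i i.2⟩ l : ℝ)) ⊗ₜ[ℚ] (v l : AQ W X) := by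
      intro i _
      have h2 : p i = ∑ l, (v.repr ⟨p i, hpM i i.2⟩ l) • (v l : AQ W X) := by
        have := congrArg Subtype.val (v.sum_repr ⟨p i, hpM i i.2⟩).symm
        rw [Submodule.coe_sum] at this
        exact this
      show (e i) ⊗ₜ[ℚ] (p i) = _
      conv_lhs => rw [h2]
      rw [TensorProduct.tmul_sum]
      apply Finset.sum_congr rfl
      intro l _
      rw [rat_tmul, TensorProduct.smul_tmul', smul_eq_mul, mul_comm]
    rw [Finset.sum_congr rfl h1, Finset.sum_comm]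
    apply Finset.sum_congr rfl
    intro l _
    rw [hr, TensorProduct.sum_tmul]
  have hr0 : r ≠ 0 := by
    intro h
    apply hx0
    rw [hxr]
    apply Finset.sum_eq_zero
    intro l _
    rw [h, Pi.zero_apply, TensorProduct.zero_tmul]
  have hval : (-1 : ℝ) ^ j * degR W X (x * x) =
      ∑ l, r l * r l * ((-1 : ℝ) ^ j * (B (v l) (v l) : ℝ)) := by
    have h1 : degR W X (x * x) = ∑ l, ∑ l', r l * r l' * (B (v l) (v l') : ℝ) := by
      conv_lhs => rw [hxr]
      rw [Finset.sum_mul_sum, map_sum]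
      apply Finset.sum_congr rfl
      intro l _
      rw [map_sum]
      apply Finset.sum_congr rfl
      intro l' _
      rw [Algebra.TensorProduct.tmul_mul_tmul, degR_tmul, hBapply]
    rw [h1, Finset.mul_sum]
    apply Finset.sum_congr rfl
    intro l _
    rw [Finset.sum_eq_single l]
    · ring
    · intro l' _ hl'
      have h2 : B (v l) (v l') = 0 := hv _ _ (Ne.symm hl')
      rw [h2, Rat.cast_zero, mul_zero]
    · intro h; exact absurd (Finset.mem_univ _) h
  rw [hval]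
  apply sum_sq_pos _ hr0
  intro l
  have h1 := hpos (v l : AQ W X) (hMP (v l).2) (fun h => v.ne_zero l (Subtype.ext h))
  rw [hBapply]
  exact_mod_cast h1

end mid

end Pool.Agent.R910.Mix
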